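import Pool.Agent.Q173.PI.OscW
import Pool.Agent.Q173.JD.Ord

set_option autoImplicit false

/-! # Admissibility of the functions `W (e ^ be * t ^ al)` -/

namespace Pool.Agent.Q173.PI

open Finset Filter Topology MeasureTheory
open Pool.Agent.Q173.JD (Osc Adm HH)
open Pool.Agent.Q173.JL (MM Dd)

noncomputable section

/-- one function -/
def ph1 (al be t : ℝ) : ℝ := 2 * Real.pi * Real.exp (w (al * Real.log t + be))

lemma phi_eq {n : ℕ} (al be : Fin n → ℝ) (j : Fin n) : phi al be j = ph1 (al j) (be j) := rfl

lemma ph1_meas (al be : ℝ) : Measurable (ph1 al be) := by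
  unfold ph1
  exact (Real.measurable_exp.comp (w_cont.measurable.comp ((Real.measurable_log.const_mul al).add_const be))).const_mul _

lemma MM_ph (al be t : ℝ) : MM (ph1 al be t) = Real.exp (al * Real.log t + be) := by
  unfold MM ph1
  have hpi := Real.pi_pos
  have e : 2 * Real.pi * Real.exp (w (al * Real.log t + be)) / (2 * Real.pi) = Real.exp (w (al * Real.log t + be)) := by
    field_simp
  rw [e, Real.log_exp]
  linear_combination w_eq (al * Real.log t + be)

lemma ph1_deriv (al be : ℝ) {t : ℝ} (ht : 0 < t) :
    HasDerivAt (ph1 al be) (al / t * (2 * Real.pi * Real.exp (w (al * Real.log t + be)) *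
      ((w (al * Real.log t + be) - 1) / w (al * Real.log t + be)))) t := by
  have h1 : HasDerivAt (fun t : ℝ => al * Real.log t + be) (al / t) t := by
    have := ((Real.hasDerivAt_log ht.ne').const_mul al).add_const be
    simpa [div_eq_mul_inv] using this
  have h2 := (((w_deriv (al * Real.log t + be)).comp t h1).exp).const_mul (2 * Real.pi)
  refine h2.congr_deriv ?_
  simp only [Function.comp]
  ring

lemma ph1_mono {al be t t' : ℝ} (hal : 0 < al) (ht : 0 < t) (htt : t ≤ t') : ph1 al be t ≤ ph1 al be t' := by
  unfold ph1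
  have hpi := Real.pi_pos
  refine mul_le_mul_of_nonneg_left (Real.exp_le_exp.2 (w_mono ?_).1) (by positivity)
  have := Real.log_le_log ht htt
  have := mul_le_mul_of_nonneg_left this hal.le
  linarith

lemma ph1_HH {al : ℝ} (be : ℝ) (hal : 0 < al) : HH (ph1 al be) := by
  have hpi := Real.pi_gt_three
  refine ⟨al / 4, 2 * al, by positivity, by positivity, ?_⟩
  have hlog : Tendsto (fun t : ℝ => Real.log t) atTop atTop := Real.tendsto_log_atTop
  have hy : Tendsto (fun t : ℝ => al * Real.log t + be) atTop atTop :=
    tendsto_atTop_add_const_right _ _ (hlog.const_mul_atTop hal)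
  filter_upwards [hy.eventually_ge_atTop 2, hlog.eventually_ge_atTop (2 * |be| / al), hlog.eventually_ge_atTop ((be + 7) / al),
    eventually_gt_atTop 0] with t h1 h2 h3 h0
  obtain ⟨h4, h5⟩ := w_size h1
  rw [div_le_iff₀ hal] at h2 h3
  unfold ph1
  constructor
  · rw [Real.rpow_def_of_pos h0]
    have h6 : Real.exp (Real.log t * (al / 4)) ≤ Real.exp (w (al * Real.log t + be)) := by
      refine Real.exp_le_exp.2 ?_
      have := neg_abs_le be
      linarith
    have := Real.exp_pos (w (al * Real.log t + be))
    nlinarith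
  · rw [Real.rpow_def_of_pos h0]
    have h7 : (2 * Real.pi) ≤ Real.exp 7 := by
      have := Real.add_one_le_exp (7 : ℝ)
      have := Real.pi_lt_four
      linarith
    calc 2 * Real.pi * Real.exp (w (al * Real.log t + be)) ≤ Real.exp 7 * Real.exp (w (al * Real.log t + be)) :=
          mul_le_mul_of_nonneg_right h7 (Real.exp_pos _).le
      _ = Real.exp (7 + w (al * Real.log t + be)) := by rw [Real.exp_add]
      _ ≤ Real.exp (Real.log t * (2 * al)) := Real.exp_le_exp.2 (by linarith)

/-- the admissibility data with `H = q` -/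
lemma ph1_adm {al : ℝ} (be : ℝ) (hal : 0 < al) : ∀ᶠ T : ℝ in atTop,
    (∀ t ∈ Set.Icc T (2 * T), HasDerivAt (ph1 al be) (al / t * (2 * Real.pi * Real.exp (w (al * Real.log t + be)) *
      ((w (al * Real.log t + be) - 1) / w (al * Real.log t + be)))) t ∧
      al / 4 * ph1 al be T / T ≤ al / t * (2 * Real.pi * Real.exp (w (al * Real.log t + be)) *
      ((w (al * Real.log t + be) - 1) / w (al * Real.log t + be)))) ∧
    ph1 al be (2 * T) ≤ 2 ^ al * ph1 al be T := by
  have hpi := Real.pi_pos
  have hy : Tendsto (fun t : ℝ => al * Real.log t + be) atTop atTop :=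
    tendsto_atTop_add_const_right _ _ (Real.tendsto_log_atTop.const_mul_atTop hal)
  filter_upwards [(w_lim.comp hy).eventually_ge_atTop 2, eventually_gt_atTop 0] with T h1 h0
  refine ⟨fun t ht => ?_, ?_⟩
  · have ht0 : 0 < t := lt_of_lt_of_le h0 ht.1
    refine ⟨ph1_deriv al be ht0, ?_⟩
    have hm : w (al * Real.log T + be) ≤ w (al * Real.log t + be) := (w_mono (by
      have := mul_le_mul_of_nonneg_left (Real.log_le_log h0 ht.1) hal.le
      linarith)).1
    have h1' : 2 ≤ w (al * Real.log T + be) := h1
    set W := w (al * Real.log t + be) with hW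
    set W0 := w (al * Real.log T + be) with hW0
    have hW2 : 2 ≤ W := h1'.trans hm
    have h3 : 1 / 2 ≤ (W - 1) / W := by rw [div_le_div_iff₀ two_pos (by linarith)]; linarith
    have h4 : 2 * Real.pi * Real.exp W0 ≤ 2 * Real.pi * Real.exp W :=
      mul_le_mul_of_nonneg_left (Real.exp_le_exp.2 hm) (by positivity)
    have e0 : ph1 al be T = 2 * Real.pi * Real.exp W0 := rfl
    rw [e0]
    have h5 : al / (2 * T) ≤ al / t := div_le_div_of_nonneg_left hal.le ht0 ht.2
    calc al / 4 * (2 * Real.pi * Real.exp W0) / T = al / (2 * T) * (2 * Real.pi * Real.exp W0 * (1 / 2)) := by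
          field_simp; norm_num
      _ ≤ al / t * (2 * Real.pi * Real.exp W * ((W - 1) / W)) := by
          refine mul_le_mul h5 (mul_le_mul h4 h3 (by norm_num) (by positivity)) (by positivity) (by positivity)
  · unfold ph1
    have h2 : w (al * Real.log (2 * T) + be) ≤ w (al * Real.log T + be) + al * Real.log 2 := by
      have e : al * Real.log (2 * T) + be = (al * Real.log T + be) + al * Real.log 2 := by
        rw [Real.log_mul two_ne_zero h0.ne']; ring
      have h3 : al * Real.log T + be ≤ al * Real.log (2 * T) + be := by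
        rw [e]
        have := Real.log_pos one_lt_two
        have := mul_pos hal this
        linarith
      have := (w_mono h3).2
      linarith
    calc 2 * Real.pi * Real.exp (w (al * Real.log (2 * T) + be)) ≤
          2 * Real.pi * Real.exp (w (al * Real.log T + be) + al * Real.log 2) :=
          mul_le_mul_of_nonneg_left (Real.exp_le_exp.2 h2) (by positivity)
      _ = _ := by
          rw [Real.exp_add, Real.rpow_def_of_pos two_pos, mul_comm (Real.log 2)]; ring

lemma Adm_ph {al : ℝ} (be : ℝ) (hal : 0 < al) : Adm (ph1 al be) := by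
  refine ⟨fun t => al / t * (2 * Real.pi * Real.exp (w (al * Real.log t + be)) *
      ((w (al * Real.log t + be) - 1) / w (al * Real.log t + be))), ph1 al be, al / 4, 2 ^ al, by positivity,
    Real.one_le_rpow one_le_two hal.le, ph1_HH be hal, ?_⟩
  filter_upwards [ph1_adm be hal] with T hT
  exact ⟨hT.1, le_rfl, hT.2⟩

/-- **the characteristic functions of the displacements at the deterministic positions** -/
theorem ph_char {k : ℕ} (al be : Fin k → ℝ) (hal : ∀ j, 0 < al j) (hinj : ∀ i j, al i = al j → be i = be j → i = j)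
    (c : Fin k → ℝ) :
    Tendsto (fun T => ∫ t, Complex.exp (Complex.I * ((∑ j, c j * (Pool.Agent.Q173.JD.zT T * Dd (ph1 (al j) (be j) t)) : ℝ) : ℂ))
      ∂(Pool.Agent.Q173.JD.muT T)) atTop (𝓝 ((Real.exp (-(1 / 2 * ∑ j, c j ^ 2)) : ℝ) : ℂ)) := by
  classical
  set D : Pool.Agent.Q173.JD.Dat k k := ⟨fun j i => if i = j then 1 else 0, fun _ => 0⟩ with hD
  have hOk : D.Ok := by
    refine ⟨fun j h => ?_, fun j j' h => ?_, fun j j' h _ => ?_⟩
    · have h1 := congrFun h j
      simp [hD] at h1
    · have h1 := congrFun h j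
      simp only [hD, if_true, Pi.neg_apply] at h1
      split_ifs at h1 <;> omega
    · have h1 := congrFun h j
      simp only [hD, if_true] at h1
      split_ifs at h1 with h2
      · exact h2
      · exact absurd h1 one_ne_zero
  have harg : ∀ j, D.arg (phi al be) j = ph1 (al j) (be j) := by
    intro j
    funext t
    unfold Pool.Agent.Q173.JD.Dat.arg
    simp only [hD, add_zero]
    rw [Finset.sum_eq_single j]
    · simp [phi_eq]
    · intro i _ hij
      rw [if_neg hij]; simp
    · intro h; exact absurd (Finset.mem_univ _) h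
  have h := Pool.Agent.Q173.JD.disp_char hOk (φ := phi al be) (fun i => ph1_meas (al i) (be i))
    (Pool.Agent.Q173.JD.nr_of_osc (Osc_phi al be hal hinj)) (fun j => by rw [harg]; exact Adm_ph (be j) (hal j)) c
  simp_rw [harg] at h
  exact h

end

end Pool.Agent.Q173.PI
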