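import Pool.Agent.Q173.PI.Dvq
import Pool.Agent.Q173.JD.Out

set_option autoImplicit false

/-! # From the displacements at deterministic positions to the ordinates with given index -/

namespace Pool.Agent.Q173.PI

open Filter Topology MeasureTheory Set
open Pool.Agent.Q173.JD (Adm HH dev_abs zT muT muT_int muT_prob Dd_meas)
open Pool.Agent.Q173.JL (MB MM Dd)
open SG (ord NZ)

noncomputable section

/-- increments of the main term -/
lemma mm_bd {a b : ℝ} (ha : 0 < a) (hb : 0 < b) : (b - a) / (2 * Real.pi) * Real.log (a / (2 * Real.pi)) ≤ MM b - MM a ∧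
    MM b - MM a ≤ (b - a) / (2 * Real.pi) * Real.log (b / (2 * Real.pi)) := by
  have hpi := Real.pi_pos
  unfold MM
  set x := a / (2 * Real.pi) with hx
  set y := b / (2 * Real.pi) with hy
  have hx0 : 0 < x := by positivity
  have hy0 : 0 < y := by positivity
  have h1 := Real.one_sub_inv_le_log_of_pos (div_pos hy0 hx0)
  rw [Real.log_div hy0.ne' hx0.ne', inv_div] at h1
  have h2 := Real.one_sub_inv_le_log_of_pos (div_pos hx0 hy0)
  rw [Real.log_div hx0.ne' hy0.ne', inv_div] at h2
  have e : (b - a) / (2 * Real.pi) = y - x := by rw [hx, hy, sub_div]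
  rw [e]
  have h3 := mul_le_mul_of_nonneg_left h1 hy0.le
  have h4 := mul_le_mul_of_nonneg_left h2 hx0.le
  have e3 : y * (1 - x / y) = y - x := by field_simp
  have e4 : x * (1 - y / x) = x - y := by field_simp
  rw [e3] at h3
  rw [e4] at h4
  constructor <;> nlinarith

/-- the index -/
def ix (al be u : ℝ) : ℕ := ⌊Real.exp be * (⌊u⌋₊ : ℝ) ^ al⌋₊

lemma ix_bd {al be u : ℝ} (hal : 0 < al) (hal1 : al ≤ 1) (hu : 1 ≤ u) :
    (ix al be u : ℝ) ≤ Real.exp (al * Real.log u + be) ∧
    Real.exp (al * Real.log u + be) - (Real.exp be + 1) ≤ ix al be u := by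
  have hu0 : 0 < u := by linarith
  have he := Real.exp_pos be
  have e1 : Real.exp (al * Real.log u + be) = Real.exp be * u ^ al := by
    rw [Real.exp_add, Real.rpow_def_of_pos hu0]; ring_nf
  have hf : (⌊u⌋₊ : ℝ) ≤ u := Nat.floor_le hu0.le
  have hf2 : u < ⌊u⌋₊ + 1 := Nat.lt_floor_add_one u
  have hf0 : (0 : ℝ) ≤ ⌊u⌋₊ := Nat.cast_nonneg _
  rw [e1]
  unfold ix
  constructor
  · refine (Nat.floor_le (by positivity)).trans ?_
    exact mul_le_mul_of_nonneg_left (Real.rpow_le_rpow hf0 hf hal.le) he.le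
  · have h1 := Nat.lt_floor_add_one (Real.exp be * (⌊u⌋₊ : ℝ) ^ al)
    have h2 : u ^ al ≤ (⌊u⌋₊ : ℝ) ^ al + 1 := by
      calc u ^ al ≤ ((⌊u⌋₊ : ℝ) + 1) ^ al := Real.rpow_le_rpow hu0.le hf2.le hal.le
        _ ≤ (⌊u⌋₊ : ℝ) ^ al + 1 ^ al := Real.rpow_add_le_add_rpow hf0 zero_le_one hal.le hal1
        _ = _ := by rw [Real.one_rpow]
    have h3 := mul_le_mul_of_nonneg_left h2 he.le
    linarith

/-- the displacement at the deterministic position, normalised -/
def Zf (al be T u : ℝ) : ℝ := -(zT T * Dd (ph1 al be u))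

/-- the displacement of the ordinate with index `ix` -/
def Yf (al be T u : ℝ) : ℝ := zT T * (Real.pi * (MM (ord (ix al be u)) - ix al be u))

lemma Zf_meas (al be T : ℝ) : Measurable (Zf al be T) :=
  ((Dd_meas.comp (ph1_meas al be)).const_mul _).neg

lemma Yf_meas (al be T : ℝ) : Measurable (Yf al be T) := by
  have h1 : Measurable fun u : ℝ => ⌊u⌋₊ := Nat.measurable_floor
  have h2 : Measurable fun n : ℕ => zT T * (Real.pi * (MM (ord ⌊Real.exp be * (n : ℝ) ^ al⌋₊) -
      (⌊Real.exp be * (n : ℝ) ^ al⌋₊ : ℝ))) := measurable_from_top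
  exact h2.comp h1

lemma zR {T : ℝ} (h : 0 < Real.log (Real.log T)) : zT T * (Real.pi * RR T) = 1 ∧ 0 < RR T := by
  have hpi := Real.pi_pos
  have h2 : 0 < Real.sqrt (Real.log (Real.log T) / 2) := Real.sqrt_pos.2 (by positivity)
  constructor
  · unfold RR
    rw [mul_div_cancel₀ _ hpi.ne', Pool.Agent.Q173.JD.zT_eq, div_self h2.ne']
  · exact div_pos h2 hpi

/-- the deterministic part -/
lemma det {al be T u y δ C : ℝ} (hLL : 0 < Real.log (Real.log T)) (hδ : 0 < δ) (hC : C ≤ δ / 4 * RR T)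
    (hm1 : (ix al be u : ℝ) ≤ Real.exp (al * Real.log u + be)) (hm2 : Real.exp (al * Real.log u + be) - C ≤ ix al be u)
    (hm3 : NZ (2 * Real.pi) < ix al be u)
    (hM : ∀ s, s = y + δ / 2 ∨ s = y - δ / 2 → 2 * Real.pi ≤ ph1 al be u + el al be s T ∧
      |MM (ph1 al be u + el al be s T) - MM (ph1 al be u) - s * RR T| ≤ δ / 4 * RR T)
    (hbad : (Zf al be T u ≤ y - δ ∧ y < Yf al be T u) ∨ (y + δ ≤ Zf al be T u ∧ Yf al be T u ≤ y)) :
    ∃ s, (s = y + δ / 2 ∨ s = y - δ / 2) ∧
      δ / 4 * RR T ≤ |(NZ (ph1 al be u + el al be s T) : ℝ) - NZ (ph1 al be u) - s * RR T| := by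
  have hpi := Real.pi_pos
  obtain ⟨hz, hR⟩ := zR hLL
  set R := RR T with hRd
  set q := ph1 al be u with hq
  set v := Real.exp (al * Real.log u + be) with hv
  set m := ix al be u with hm
  have hMq : MM q = v := MM_ph al be u
  have hmpos : 1 ≤ m := by omega
  have hDd : Dd q = Real.pi * ((NZ q : ℝ) - v) := by
    unfold Dd
    rw [← Pool.Agent.Q173.NL.NZ_eq, hMq]
  have hz0 : 0 < zT T := by
    rcases (Pool.Agent.Q173.JD.zT_nonneg T).lt_or_eq with h | h
    · exact h
    · rw [← h, zero_mul] at hz; exact absurd hz zero_ne_one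
  have hzp : 0 < zT T * Real.pi := by positivity
  have hZ : Zf al be T u * R = v - NZ q := by
    unfold Zf
    rw [← hq, hDd]
    linear_combination (v - (NZ q : ℝ)) * hz
  have hY : Yf al be T u * R = MM (ord m) - m := by
    unfold Yf
    rw [← hm]
    linear_combination (MM (ord m) - m) * hz
  rcases hbad with ⟨h1, h2⟩ | ⟨h1, h2⟩
  · -- `Z ≤ y - δ`, `y < Y`
    refine ⟨y - δ / 2, Or.inr rfl, ?_⟩
    obtain ⟨hge, habs⟩ := hM (y - δ / 2) (Or.inr rfl)
    have h3 : v - NZ q ≤ (y - δ) * R := by rw [← hZ]; exact mul_le_mul_of_nonneg_right h1 hR.le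
    have h4 : y * R < MM (ord m) - m := by rw [← hY]; exact mul_lt_mul_of_pos_right h2 hR
    have h5 := (abs_le.1 habs).2
    rw [hMq] at h5
    have h6 : MM (q + el al be (y - δ / 2) T) < MM (ord m) := by nlinarith
    have h7 : q + el al be (y - δ / 2) T < ord m := by
      by_contra hcon
      push Not at hcon
      have h8 : 2 * Real.pi ≤ ord m := by
        by_contra h9
        push Not at h9
        have := (SG.ord_le_iff hmpos _).1 h9.le
        omega
      have := Pool.Agent.Q173.JD.MM_mono h8 hcon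
      linarith
    have h8 : NZ (q + el al be (y - δ / 2) T) < m := by
      by_contra hcon
      push Not at hcon
      have := (SG.ord_le_iff hmpos _).2 hcon
      linarith
    have h9 : (NZ (q + el al be (y - δ / 2) T) : ℝ) ≤ m := by exact_mod_cast h8.le
    rw [le_abs]
    right
    nlinarith
  · refine ⟨y + δ / 2, Or.inl rfl, ?_⟩
    obtain ⟨hge, habs⟩ := hM (y + δ / 2) (Or.inl rfl)
    have h3 : (y + δ) * R ≤ v - NZ q := by rw [← hZ]; exact mul_le_mul_of_nonneg_right h1 hR.le
    have h4 : MM (ord m) - m ≤ y * R := by rw [← hY]; exact mul_le_mul_of_nonneg_right h2 hR.le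
    have h5 := (abs_le.1 habs).1
    rw [hMq] at h5
    have h6 : MM (ord m) < MM (q + el al be (y + δ / 2) T) := by nlinarith
    have h7 : ord m ≤ q + el al be (y + δ / 2) T := by
      by_contra hcon
      push Not at hcon
      have := Pool.Agent.Q173.JD.MM_mono hge hcon.le
      linarith
    have h8 : (m : ℝ) ≤ NZ (q + el al be (y + δ / 2) T) := by exact_mod_cast (SG.ord_le_iff hmpos _).1 h7
    rw [le_abs]
    left
    nlinarith

/-- the main term over the short distance -/
lemma mm_near {al : ℝ} (be : ℝ) (hal : 0 < al) (s η : ℝ) (hη : 0 < η) : ∀ᶠ T : ℝ in atTop, ∀ u ∈ Icc T (2 * T),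
    2 * Real.pi ≤ ph1 al be u + el al be s T ∧
      |MM (ph1 al be u + el al be s T) - MM (ph1 al be u) - s * RR T| ≤ η * RR T := by
  have hpi := Real.pi_gt_three
  have hHH := ph1_HH be hal
  obtain ⟨C, hC0, hC⟩ := hHH.ll
  have hlogH : Tendsto (fun T : ℝ => Real.log (ph1 al be T)) atTop atTop := Real.tendsto_log_atTop.comp hHH.tendsto
  have hLL : Tendsto (fun T : ℝ => Real.log (Real.log T)) atTop atTop := Real.tendsto_log_atTop.comp Real.tendsto_log_atTop
  set K : ℝ := Real.log (4 * Real.pi) + Real.log (2 * 2 ^ al) with hK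
  have h4pi : 0 < Real.log (4 * Real.pi) := Real.log_pos (by linarith)
  have h2al : (1:ℝ) ≤ 2 ^ al := Real.one_le_rpow one_le_two hal.le
  have h22 : 0 < Real.log (2 * 2 ^ al) := Real.log_pos (by linarith)
  have hK0 : 0 < K := by positivity
  have hsq : ∀ᶠ x : ℝ in atTop, |s| * Real.sqrt x + C ≤ x := by
    have h3 : Tendsto Real.sqrt atTop atTop := Real.tendsto_sqrt_atTop
    filter_upwards [h3.eventually_ge_atTop (|s| + C + 1), eventually_ge_atTop 1] with x h4 h5
    have h6 := Real.mul_self_sqrt (show 0 ≤ x by linarith)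
    have h7 : 1 ≤ Real.sqrt x := by
      have : 0 ≤ |s| + C := by positivity
      linarith
    nlinarith [abs_nonneg s]
  filter_upwards [ph1_adm be hal, hlogH.eventually_ge_atTop (max (|s| * K / η) 1), hHH.tendsto.eventually_ge_atTop 100,
    eventually_gt_atTop 0, hLL.eventually hsq, hC, hLL.eventually_ge_atTop 1] with T t1 t2 t3 t4 t5 t6 t7 u hu
  obtain ⟨-, hup⟩ := t1
  set H := ph1 al be T with hH
  have hH0 : 0 < H := by linarith
  have hlogH1 : 1 ≤ Real.log H := (le_max_right _ _).trans t2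
  have hlogH0 : 0 < Real.log H := by linarith
  have hR0 := RR_nonneg T
  set R := RR T with hR
  set LT := Real.log (Real.log T) with hLT
  have hRle : Real.pi * R ≤ Real.sqrt LT := by
    have e : Real.pi * R = Real.sqrt (LT / 2) := by
      rw [hR, RR, hLT, mul_comm, div_mul_cancel₀ _ Real.pi_pos.ne']
    rw [e]
    exact Real.sqrt_le_sqrt (by linarith)
  have hR1 : R ≤ Real.sqrt LT := by nlinarith
  have hsR : |s| * R ≤ Real.log H := by
    have h1 : |s| * R ≤ |s| * Real.sqrt LT := mul_le_mul_of_nonneg_left hR1 (abs_nonneg s)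
    have h2 := Real.log_le_sub_one_of_pos hlogH0
    have h3 := (abs_le.1 t6).1
    linarith
  have hel : |el al be s T| ≤ 7 := by
    unfold el
    rw [← hH, ← hR, abs_div, abs_mul, abs_mul s R, abs_of_nonneg hR0, abs_of_pos hlogH0, abs_of_pos (by positivity : 0 < 2 * Real.pi),
      div_le_iff₀ hlogH0]
    have := Real.pi_lt_d2
    nlinarith [mul_nonneg (abs_nonneg s) hR0]
  obtain ⟨he1, he2⟩ := abs_le.1 hel
  have hq1 : H ≤ ph1 al be u := ph1_mono hal t4 hu.1
  have hq2 : ph1 al be u ≤ 2 ^ al * H := (ph1_mono hal (by linarith [hu.1]) hu.2).trans hup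
  set q := ph1 al be u with hq
  set ℓ := el al be s T with hℓ
  have hpi4 := Real.pi_lt_four
  refine ⟨by linarith, ?_⟩
  obtain ⟨g1, g2⟩ := mm_bd (a := q) (b := q + ℓ) (by linarith) (by linarith)
  rw [add_sub_cancel_left] at g1 g2
  -- the logarithms
  have hlg : ∀ x, H / 2 ≤ x → x ≤ 2 * 2 ^ al * H → |ℓ / (2 * Real.pi) * Real.log (x / (2 * Real.pi)) - s * R| ≤ η * R := by
    intro x hx1 hx2
    have hx0 : 0 < x := by linarith
    have e1 : ℓ / (2 * Real.pi) * Real.log (x / (2 * Real.pi)) - s * R =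
        s * R * ((Real.log (x / (2 * Real.pi)) - Real.log H) / Real.log H) := by
      rw [hℓ, el, ← hH, ← hR]
      field_simp
    have h1 : Real.log (x / (2 * Real.pi)) ≤ Real.log H + Real.log (2 * 2 ^ al) := by
      rw [← Real.log_mul hH0.ne' (by positivity)]
      refine Real.log_le_log (by positivity) ?_
      calc x / (2 * Real.pi) ≤ x := div_le_self hx0.le (by linarith)
        _ ≤ H * (2 * 2 ^ al) := by linarith
    have h2 : Real.log H - Real.log (4 * Real.pi) ≤ Real.log (x / (2 * Real.pi)) := by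
      rw [← Real.log_div hH0.ne' (by positivity)]
      refine Real.log_le_log (by positivity) ?_
      calc H / (4 * Real.pi) = (H / 2) / (2 * Real.pi) := by field_simp; norm_num
        _ ≤ x / (2 * Real.pi) := div_le_div_of_nonneg_right hx1 (by positivity)
    have h3 : |Real.log (x / (2 * Real.pi)) - Real.log H| ≤ K := by
      rw [abs_le]
      constructor <;> linarith
    rw [e1, abs_mul, abs_mul, abs_of_nonneg hR0, abs_div, abs_of_pos hlogH0]
    have h4 : |s| * K / η ≤ Real.log H := (le_max_left _ _).trans t2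
    rw [div_le_iff₀ hη] at h4
    calc |s| * R * (|Real.log (x / (2 * Real.pi)) - Real.log H| / Real.log H) ≤ |s| * R * (K / Real.log H) := by gcongr
      _ = (|s| * K) * R / Real.log H := by ring
      _ ≤ (Real.log H * η) * R / Real.log H := by gcongr
      _ = η * R := by field_simp
  have k1 := hlg q (by linarith) (by nlinarith)
  have k2 := hlg (q + ℓ) (by linarith) (by nlinarith)
  rw [abs_le] at k1 k2 ⊢
  constructor <;> linarith [k1.1, k1.2, k2.1, k2.2]

/-- the bad events are rare -/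
lemma bad {al : ℝ} (be : ℝ) (hal : 0 < al) (hal1 : al ≤ 1) (y δ : ℝ) (hδ : 0 < δ) :
    Tendsto (fun T : ℝ => (muT T).real {u | (Zf al be T u ≤ y - δ ∧ y < Yf al be T u) ∨
      (y + δ ≤ Zf al be T u ∧ Yf al be T u ≤ y)}) atTop (𝓝 0) := by
  have hpi := Real.pi_gt_three
  have hLL : Tendsto (fun T : ℝ => Real.log (Real.log T)) atTop atTop := Real.tendsto_log_atTop.comp Real.tendsto_log_atTop
  have hRlim : Tendsto RR atTop atTop := by
    unfold RR
    exact (Real.tendsto_sqrt_atTop.comp (hLL.atTop_div_const two_pos)).atTop_div_const Real.pi_pos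
  have hylim : Tendsto (fun T : ℝ => Real.exp (al * Real.log T + be)) atTop atTop :=
    Real.tendsto_exp_atTop.comp (tendsto_atTop_add_const_right _ _ (Real.tendsto_log_atTop.const_mul_atTop hal))
  rw [Metric.tendsto_nhds]
  intro ε hε
  set ε' : ℝ := δ * ε / 128 with hε'
  have hε'0 : 0 < ε' := by positivity
  set C : ℝ := Real.exp be + 1 with hC
  filter_upwards [dvq be hal (y + δ / 2) ε' hε'0, dvq be hal (y - δ / 2) ε' hε'0,
    mm_near be hal (y + δ / 2) (δ / 4) (by positivity), mm_near be hal (y - δ / 2) (δ / 4) (by positivity),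
    hRlim.eventually_ge_atTop (4 * C / δ), hylim.eventually_gt_atTop (NZ (2 * Real.pi) + C), eventually_ge_atTop 1,
    hLL.eventually_ge_atTop 1] with T t1 t2 t3 t4 t5 t6 t7 t8
  have hT0 : 0 < T := by linarith
  have hLL0 : 0 < Real.log (Real.log T) := by linarith
  have := muT_prob hT0
  obtain ⟨-, hR0⟩ := zR hLL0
  set R := RR T with hR
  set F : ℝ → ℝ → ℝ := fun s u => |(NZ (ph1 al be u + el al be s T) : ℝ) - NZ (ph1 al be u) - s * R| with hF
  have hFm : ∀ s, Measurable (F s) := fun s =>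
    ((MB_F (el al be s T) (s * R) 0 0).1).comp (ph1_meas al be)
  have hF0 : ∀ s u, 0 ≤ F s u := fun s u => abs_nonneg _
  have hCR : C ≤ δ / 4 * R := by
    rw [div_le_iff₀ hδ] at t5
    linarith
  -- the inclusion
  have hsub : {u | (Zf al be T u ≤ y - δ ∧ y < Yf al be T u) ∨ (y + δ ≤ Zf al be T u ∧ Yf al be T u ≤ y)} ⊆
      ({u | δ / 4 * R ≤ F (y + δ / 2) u} ∪ {u | δ / 4 * R ≤ F (y - δ / 2) u}) ∪ (Ioc T (2 * T))ᶜ := by
    intro u hu
    by_cases hmem : u ∈ Ioc T (2 * T)
    · left
      have hmem' : u ∈ Icc T (2 * T) := ⟨hmem.1.le, hmem.2⟩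
      obtain ⟨i1, i2⟩ := ix_bd (al := al) (be := be) (u := u) hal hal1 (by linarith [hmem.1])
      have i3 : Real.exp (al * Real.log T + be) ≤ Real.exp (al * Real.log u + be) := by
        refine Real.exp_le_exp.2 ?_
        have := mul_le_mul_of_nonneg_left (Real.log_le_log hT0 hmem.1.le) hal.le
        linarith
      have i4 : NZ (2 * Real.pi) < ix al be u := by
        have : (NZ (2 * Real.pi) : ℝ) < ix al be u := by linarith
        exact_mod_cast this
      obtain ⟨s, hs, hs2⟩ := det (C := C) hLL0 hδ hCR i1 i2 i4 (fun s hs => by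
        rcases hs with rfl | rfl
        · exact t3 u hmem'
        · exact t4 u hmem') hu
      rcases hs with rfl | rfl
      · left; exact hs2
      · right; exact hs2
    · right; exact hmem
  -- the integrals
  have hint : ∀ s, Integrable (F s) (muT T) := by
    intro s
    obtain ⟨M, hM⟩ := (MB_F (el al be s T) (s * R) (ph1 al be T) (ph1 al be (2 * T))).2
    refine Integrable.of_bound (C := M) (hFm s).aestronglyMeasurable ?_
    unfold muT
    refine Measure.ae_smul_measure ?_ _
    refine (ae_restrict_iff' measurableSet_Ioc).2 (Eventually.of_forall fun u hu => ?_)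
    exact hM _ ⟨ph1_mono hal hT0 hu.1.le, ph1_mono hal (by linarith [hu.1]) hu.2⟩
  have hmark : ∀ s, ∫ u in T..2 * T, F s u ≤ ε' * (T * Real.sqrt (Real.log (Real.log T))) →
      (muT T).real {u | δ / 4 * R ≤ F s u} ≤ ε / 4 := by
    intro s hs
    have h1 := mul_meas_ge_le_integral_of_nonneg (μ := muT T) (Eventually.of_forall (hF0 s)) (hint s) (δ / 4 * R)
    rw [muT_int hT0, smul_eq_mul] at h1
    have h2 : T⁻¹ * ∫ u in T..2 * T, F s u ≤ ε' * Real.sqrt (Real.log (Real.log T)) := by
      rw [inv_mul_le_iff₀ hT0]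
      linarith
    have h3 : Real.sqrt (Real.log (Real.log T)) ≤ 8 * R := by
      have e : R = Real.sqrt (Real.log (Real.log T) / 2) / Real.pi := rfl
      have h4 : Real.sqrt (Real.log (Real.log T)) ≤ 2 * Real.sqrt (Real.log (Real.log T) / 2) := by
        rw [← Real.sqrt_sq (show (0:ℝ) ≤ 2 by norm_num), ← Real.sqrt_mul (by norm_num)]
        exact Real.sqrt_le_sqrt (by linarith)
      have h5 := Real.pi_lt_four
      have h6 : Real.sqrt (Real.log (Real.log T) / 2) = Real.pi * R := by rw [e]; field_simp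
      rw [h6] at h4
      nlinarith
    have h4 : δ / 4 * R * (muT T).real {u | δ / 4 * R ≤ F s u} ≤ δ / 4 * R * (ε / 4) := by
      refine (h1.trans h2).trans ?_
      calc ε' * Real.sqrt (Real.log (Real.log T)) ≤ ε' * (8 * R) := mul_le_mul_of_nonneg_left h3 hε'0.le
        _ = δ / 4 * R * (ε / 4) := by rw [hε']; ring
    exact le_of_mul_le_mul_left h4 (by positivity)
  have hcompl : (muT T).real (Ioc T (2 * T))ᶜ = 0 := by
    unfold muT
    rw [measureReal_ennreal_smul_apply, Measure.real, Measure.restrict_apply measurableSet_Ioc.compl]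
    simp
  rw [dist_zero_right, Real.norm_of_nonneg measureReal_nonneg]
  calc _ ≤ (muT T).real (({u | δ / 4 * R ≤ F (y + δ / 2) u} ∪ {u | δ / 4 * R ≤ F (y - δ / 2) u}) ∪ (Ioc T (2 * T))ᶜ) :=
        measureReal_mono hsub
    _ ≤ ((muT T).real {u | δ / 4 * R ≤ F (y + δ / 2) u} + (muT T).real {u | δ / 4 * R ≤ F (y - δ / 2) u}) +
        (muT T).real (Ioc T (2 * T))ᶜ := (measureReal_union_le _ _).trans (add_le_add_left (measureReal_union_le _ _) _)
    _ ≤ (ε / 4 + ε / 4) + 0 := add_le_add (add_le_add (hmark _ t1) (hmark _ t2)) hcompl.le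
    _ < ε := by linarith

end

end Pool.Agent.Q173.PI
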