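import Pool.Agent.Q173.PI.Dvr

set_option autoImplicit false

/-! # Deviations along `W (e ^ be * t ^ al)` -/

namespace Pool.Agent.Q173.PI

open Filter Topology MeasureTheory Set
open Pool.Agent.Q173.JD (Adm HH dev_abs)
open Pool.Agent.Q173.JL (MB)
open SG (ord NZ)

noncomputable section

/-- the normalisation in units of the mean spacing -/
def RR (T : ℝ) : ℝ := Real.sqrt (Real.log (Real.log T) / 2) / Real.pi

/-- the length -/
def el (al be s T : ℝ) : ℝ := 2 * Real.pi * (s * RR T) / Real.log (ph1 al be T)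

lemma RR_nonneg (T : ℝ) : 0 ≤ RR T := div_nonneg (Real.sqrt_nonneg _) Real.pi_pos.le

lemma MB_F (ℓ A a b : ℝ) : MB a b (fun t => |(NZ (t + ℓ) : ℝ) - NZ t - A|) := by
  have hm : Monotone fun t : ℝ => (NZ t : ℝ) := fun x y h => by
    show (NZ x : ℝ) ≤ NZ y
    exact_mod_cast SG.NZ_mono h
  have h1 : Measurable fun t : ℝ => (NZ t : ℝ) := hm.measurable
  have h2 : Measurable fun t : ℝ => (NZ (t + ℓ) : ℝ) := h1.comp (measurable_id.add_const ℓ)
  refine ⟨((h2.sub h1).sub_const A).abs, NZ (b + ℓ) + NZ b + |A|, fun t ht => ?_⟩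
  rw [abs_abs]
  have h3 : (NZ (t + ℓ) : ℝ) ≤ NZ (b + ℓ) := by exact_mod_cast SG.NZ_mono (by linarith [ht.2])
  have h4 : (NZ t : ℝ) ≤ NZ b := by exact_mod_cast SG.NZ_mono ht.2
  have h5 : (0:ℝ) ≤ NZ (t + ℓ) := Nat.cast_nonneg _
  have h6 : (0:ℝ) ≤ NZ t := Nat.cast_nonneg _
  have h7 := neg_abs_le A
  have h8 := le_abs_self A
  rw [abs_le]
  constructor <;> linarith

lemma dvq {al : ℝ} (be : ℝ) (hal : 0 < al) (s ε : ℝ) (hε : 0 < ε) : ∀ᶠ T : ℝ in atTop,
    ∫ t in T..2 * T, |(NZ (ph1 al be t + el al be s T) : ℝ) - NZ (ph1 al be t) - s * RR T| ≤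
      ε * (T * Real.sqrt (Real.log (Real.log T))) := by
  rcases eq_or_ne s 0 with hs | hs
  · filter_upwards [eventually_gt_atTop 0] with T hT
    have e : ∀ t, |(NZ (ph1 al be t + el al be s T) : ℝ) - NZ (ph1 al be t) - s * RR T| = 0 := by
      intro t
      rw [hs, el]; simp
    simp_rw [e]
    rw [intervalIntegral.integral_zero]
    positivity
  have hpi := Real.pi_gt_three
  have hHH := ph1_HH be hal
  have hHH2 : HH (fun T => 1 / 2 * ph1 al be T) := hHH.scale (by norm_num)
  obtain ⟨C, hC0, hC⟩ := hHH2.ll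
  obtain ⟨m, hm⟩ : ∃ m : ℕ, 4 * (2 : ℝ) ^ al ≤ 2 ^ m := by
    obtain ⟨m, hm⟩ := pow_unbounded_of_one_lt (4 * (2 : ℝ) ^ al) one_lt_two
    exact ⟨m, hm.le⟩
  set ε' : ℝ := al / 4 * ε with hε'
  have hε'0 : 0 < ε' := by positivity
  have hLL : Tendsto (fun T : ℝ => Real.log (Real.log T)) atTop atTop := Real.tendsto_log_atTop.comp Real.tendsto_log_atTop
  have hlogH : Tendsto (fun T : ℝ => Real.log (ph1 al be T)) atTop atTop := Real.tendsto_log_atTop.comp hHH.tendsto
  have hsq : ∀ᶠ x : ℝ in atTop, 2 * |s| * Real.sqrt x + C ≤ x := by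
    have h3 : Tendsto Real.sqrt atTop atTop := Real.tendsto_sqrt_atTop
    filter_upwards [h3.eventually_ge_atTop (2 * |s| + C + 1), eventually_ge_atTop 1] with x h4 h5
    have h6 := Real.mul_self_sqrt (show 0 ≤ x by linarith)
    have h7 : 1 ≤ Real.sqrt x := by
      have : 0 ≤ 2 * |s| + C := by positivity
      linarith
    nlinarith [abs_nonneg s]
  filter_upwards [ph1_adm be hal, hHH2.tendsto.eventually (dv m ε' hε'0), hC, hLL.eventually hsq, hLL.eventually_ge_atTop (C + 1),
    hlogH.eventually_ge_atTop (max C 1), hHH.tendsto.eventually_ge_atTop 20, eventually_gt_atTop 0] with T t1 t2 t3 t4 t5 t6 t7 t8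
  obtain ⟨hder, hup⟩ := t1
  set H : ℝ := ph1 al be T with hH
  set LT : ℝ := Real.log (Real.log T) with hLT
  set R : ℝ := RR T with hR
  have hR0 : 0 ≤ R := RR_nonneg T
  have hH0 : 0 < H := by linarith
  have hLT1 : 1 ≤ LT := by linarith
  have hlogH1 : 1 ≤ Real.log H := (le_max_right _ _).trans t6
  have hlogHC : C ≤ Real.log H := (le_max_left _ _).trans t6
  have hlogH0 : 0 < Real.log H := by linarith
  have hs0 : 0 < |s| := abs_pos.2 hs
  have hpi0 : 0 < Real.pi := Real.pi_pos
  have hsqLT : 1 ≤ Real.sqrt LT := by rw [Real.one_le_sqrt]; exact hLT1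
  have hRπ : Real.pi * R ≤ Real.sqrt LT := by
    have e : Real.pi * R = Real.sqrt (LT / 2) := by
      rw [hR, RR, hLT, mul_comm, div_mul_cancel₀ _ hpi0.ne']
    rw [e]
    exact Real.sqrt_le_sqrt (by linarith)
  have hRle : R ≤ Real.sqrt LT := by nlinarith
  set la : ℝ := 2 * Real.pi * (|s| * R) / Real.log H with hla
  have hRpos : 0 < R := by
    rw [hR, RR]
    exact div_pos (Real.sqrt_pos.2 (by positivity)) hpi0
  have hla0 : 0 < la := by positivity
  have e12 : 1 / 2 * H = H / 2 := by ring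
  have hlogH2 : Real.log (1 / 2 * H) = Real.log H - Real.log 2 := by
    rw [e12, Real.log_div hH0.ne' two_ne_zero]
  have hl20 : 0 < Real.log 2 := Real.log_pos one_lt_two
  have hl21 : Real.log 2 ≤ 1 := by have := Real.log_two_lt_d9; linarith
  have hll := t3
  rw [abs_le] at hll
  -- `|s| R ≤ log H`
  have hsR : |s| * R ≤ Real.log H := by
    have h1 : |s| * R ≤ |s| * Real.sqrt LT := mul_le_mul_of_nonneg_left hRle hs0.le
    have h2 : Real.log (Real.log (1 / 2 * H)) ≤ Real.log H := by
      have h3 : 0 < Real.log (1 / 2 * H) := by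
        refine Real.log_pos ?_
        linarith
      have := Real.log_le_sub_one_of_pos h3
      linarith
    nlinarith [hll.1]
  have c1 : la * Real.log (1 / 2 * H) ≤ Real.log (Real.log (1 / 2 * H)) := by
    have h1 : la * Real.log (1 / 2 * H) ≤ la * Real.log H := mul_le_mul_of_nonneg_left (by linarith) hla0.le
    have h2 : la * Real.log H = 2 * |s| * (Real.pi * R) := by rw [hla]; field_simp
    have h3 : 2 * |s| * (Real.pi * R) ≤ 2 * |s| * Real.sqrt LT := mul_le_mul_of_nonneg_left hRπ (by positivity)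
    linarith [hll.1]
  have c2 : abs (|s| * R - la * Real.log (1 / 2 * H) / (2 * Real.pi)) ≤ 1 := by
    have e : |s| * R - la * Real.log (1 / 2 * H) / (2 * Real.pi) = |s| * R * Real.log 2 / Real.log H := by
      rw [hla, hlogH2]; field_simp; ring
    rw [e, abs_of_nonneg (by positivity), div_le_one hlogH0]
    calc |s| * R * Real.log 2 ≤ |s| * R * 1 := mul_le_mul_of_nonneg_left hl21 (by positivity)
      _ ≤ _ := by linarith
  have hmain := t2 la (|s| * R) hla0 c1 c2
  have hla7 : la ≤ 7 := by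
    rw [hla, div_le_iff₀ hlogH0]
    have := Real.pi_lt_d2
    nlinarith [mul_nonneg hs0.le hR0]
  have h2al : (1:ℝ) ≤ 2 ^ al := Real.one_le_rpow one_le_two hal.le
  have hq2 : H ≤ ph1 al be (2 * T) := ph1_mono hal t8 (by linarith)
  set F : ℝ → ℝ := fun x => |(NZ (x + el al be s T) : ℝ) - NZ x - s * R| with hF
  have hF0 : ∀ x, 0 ≤ F x := fun x => abs_nonneg _
  have hκ : 0 < al / 4 * H / T := by positivity
  have hsub := (Pool.Agent.Q173.JD.subst (F := F) (show T ≤ 2 * T by linarith) hκ (fun x hx => (hder x hx).1)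
    (fun x hx => (hder x hx).2) (MB_F _ _ _ _) hF0).2
  rw [← hH] at hsub
  -- the integral over the heights
  have hG : ∫ x in H..ph1 al be (2 * T), F x ≤ ε' * (1 / 2 * H * Real.sqrt (Real.log (Real.log (1 / 2 * H)))) := by
    refine le_trans ?_ hmain
    have hGi := F_int la (|s| * R)
    rcases lt_or_gt_of_ne hs with hneg | hpos
    · have e1 : el al be s T = -la := by
        rw [el, hla, abs_of_neg hneg]; ring
      have e2 : ∀ x, F x = |(NZ ((x - la) + la) : ℝ) - NZ (x - la) - |s| * R| := by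
        intro x
        simp only [hF]
        rw [e1, abs_of_neg hneg, sub_add_cancel, ← abs_neg]
        congr 1
        rw [← sub_eq_add_neg]; ring
      simp_rw [e2]
      rw [intervalIntegral.integral_comp_sub_right (fun x => |(NZ (x + la) : ℝ) - NZ x - |s| * R|) la]
      refine intervalIntegral.integral_mono_interval (by linarith) (by linarith) ?_ (Eventually.of_forall fun x => abs_nonneg _)
        (hGi _ _)
      nlinarith
    · have e1 : el al be s T = la := by
        rw [el, hla, abs_of_pos hpos]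
      have e2 : ∀ x, F x = |(NZ (x + la) : ℝ) - NZ x - |s| * R| := by
        intro x
        simp only [hF]
        rw [e1, abs_of_pos hpos]
      simp_rw [e2]
      refine intervalIntegral.integral_mono_interval (by linarith) hq2 ?_ (Eventually.of_forall fun x => abs_nonneg _)
        (hGi _ _)
      nlinarith
  have hsqrt : Real.sqrt (Real.log (Real.log (1 / 2 * H))) ≤ 2 * Real.sqrt LT := by
    have h4 : Real.log (Real.log (1 / 2 * H)) ≤ 2 ^ 2 * LT := by linarith [hll.2]
    refine (Real.sqrt_le_sqrt h4).trans (le_of_eq ?_)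
    rw [Real.sqrt_mul (by norm_num), Real.sqrt_sq two_pos.le]
  have h5 : al / 4 * H / T * ∫ t in T..2 * T, F (ph1 al be t) ≤ al / 4 * H / T * (ε * (T * Real.sqrt LT)) := by
    refine (hsub.trans hG).trans ?_
    calc ε' * (1 / 2 * H * Real.sqrt (Real.log (Real.log (1 / 2 * H)))) ≤ ε' * (1 / 2 * H * (2 * Real.sqrt LT)) := by gcongr
      _ = al / 4 * H / T * (ε * (T * Real.sqrt LT)) := by rw [hε']; field_simp
  exact le_of_mul_le_mul_left h5 hκ

end

end Pool.Agent.Q173.PI
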