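import Pool.Agent.Q173.PI.Adm

set_option autoImplicit false

/-! # Deviations on longer ranges -/

namespace Pool.Agent.Q173.PI

open Filter Topology MeasureTheory Set
open Pool.Agent.Q173.JD (Adm HH dev_abs)
open Pool.Agent.Q173.JL (MB)
open Pool.Agent.Y743.NC (dev var_le)
open SG (ord NZ)

noncomputable section

lemma F_int (ℓ A a b : ℝ) : IntervalIntegrable (fun t => |(NZ (t + ℓ) : ℝ) - NZ t - A|) volume a b := by
  rcases le_total a b with h | h
  · exact (intervalIntegrable_iff_integrableOn_Icc_of_le h).2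
      (Pool.Agent.Y743.LR.step_int SG.NZ_mono (fun n m => |(m : ℝ) - n - A|) _ _ _)
  · exact ((intervalIntegrable_iff_integrableOn_Icc_of_le h).2
      (Pool.Agent.Y743.LR.step_int SG.NZ_mono (fun n m => |(m : ℝ) - n - A|) _ _ _)).symm

lemma lim_small (C : ℝ) (K ε : ℝ) (hε : 0 < ε) : ∀ᶠ x : ℝ in atTop,
    K * (Real.sqrt (C + Real.log (1 + x)) + 2) ≤ ε * Real.sqrt x := by
  set η : ℝ := (ε / (4 * (|K| + 1))) ^ 2 with hη
  have hη0 : 0 < η := by positivity
  have h1 := (Real.isLittleO_log_id_atTop).def (show 0 < η / 2 by positivity)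
  have h2 : Tendsto (fun x : ℝ => 1 + x) atTop atTop := tendsto_atTop_add_const_left _ _ tendsto_id
  have h3 : Tendsto Real.sqrt atTop atTop := Real.tendsto_sqrt_atTop
  filter_upwards [h2.eventually h1, eventually_ge_atTop 1, eventually_ge_atTop ((|C| + η) / (η / 2)),
    h3.eventually_ge_atTop (4 * (|K| + 1) / ε)] with x a1 a2 a3 a4
  have hx0 : 0 < x := by linarith
  simp only [id] at a1
  rw [Real.norm_eq_abs, Real.norm_eq_abs, abs_of_pos (by linarith : 0 < 1 + x)] at a1
  have b1 := (le_abs_self _).trans a1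
  rw [div_le_iff₀ (by positivity)] at a3
  have b2 : C + Real.log (1 + x) ≤ η * x := by
    have := le_abs_self C
    nlinarith
  have b3 : Real.sqrt (C + Real.log (1 + x)) ≤ ε / (4 * (|K| + 1)) * Real.sqrt x := by
    refine (Real.sqrt_le_sqrt b2).trans (le_of_eq ?_)
    rw [Real.sqrt_mul hη0.le, hη, Real.sqrt_sq (by positivity)]
  have hK : 0 < |K| + 1 := by positivity
  have b4 : 2 ≤ ε / (2 * (|K| + 1)) * Real.sqrt x := by
    rw [div_le_iff₀ hε] at a4
    rw [div_mul_eq_mul_div, le_div_iff₀ (by positivity)]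
    linarith
  have b5 : Real.sqrt (C + Real.log (1 + x)) + 2 ≤ ε / (|K| + 1) * Real.sqrt x := by
    have e : ε / (|K| + 1) = ε / (4 * (|K| + 1)) + ε / (2 * (|K| + 1)) + ε / (4 * (|K| + 1)) := by
      field_simp; norm_num
    rw [e]
    have : 0 ≤ ε / (4 * (|K| + 1)) * Real.sqrt x := by positivity
    linarith
  have b6 : 0 ≤ Real.sqrt (C + Real.log (1 + x)) + 2 := by positivity
  calc K * (Real.sqrt (C + Real.log (1 + x)) + 2) ≤ (|K| + 1) * (Real.sqrt (C + Real.log (1 + x)) + 2) :=
        mul_le_mul_of_nonneg_right (by linarith [le_abs_self K]) b6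
    _ ≤ (|K| + 1) * (ε / (|K| + 1) * Real.sqrt x) := mul_le_mul_of_nonneg_left b5 hK.le
    _ = ε * Real.sqrt x := by field_simp

/-- first moments of the deviations -/
lemma dv (n : ℕ) : ∀ ε : ℝ, 0 < ε → ∀ᶠ T : ℝ in atTop, ∀ ℓ A : ℝ, 0 < ℓ → ℓ * Real.log T ≤ Real.log (Real.log T) →
    |A - ℓ * Real.log T / (2 * Real.pi)| ≤ 1 →
    ∫ t in T..(2 ^ n * T), |(NZ (t + ℓ) : ℝ) - NZ t - A| ≤ ε * (T * Real.sqrt (Real.log (Real.log T))) := by
  induction n with
  | zero =>
    intro ε hε
    filter_upwards [eventually_gt_atTop 0] with T hT ℓ A _ _ _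
    rw [pow_zero, one_mul, intervalIntegral.integral_same]
    positivity
  | succ n ih =>
    intro ε hε
    obtain ⟨C0, T0, hC0, hT0, hv⟩ := var_le
    have hLL : Tendsto (fun T : ℝ => Real.log (Real.log T)) atTop atTop := Real.tendsto_log_atTop.comp Real.tendsto_log_atTop
    have hlog2 : ∀ᶠ T : ℝ in atTop, 4 * Real.log (Real.log T) ^ 2 ≤ Real.log T := by
      have h1 := (Real.isLittleO_pow_log_id_atTop (n := 2)).def (show (0:ℝ) < 1 / 4 by norm_num)
      filter_upwards [Real.tendsto_log_atTop.eventually h1, Real.tendsto_log_atTop.eventually_ge_atTop 0] with T h2 h3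
      simp only [id] at h2
      rw [Real.norm_of_nonneg (by positivity), Real.norm_of_nonneg h3] at h2
      linarith
    filter_upwards [ih (ε / 2) (half_pos hε), eventually_ge_atTop T0, hlog2, hLL.eventually_ge_atTop (n + 2),
      hLL.eventually (lim_small C0 (2 ^ n) (ε / 2) (half_pos hε))] with T t1 t2 t3 t4 t5 ℓ A hℓ hℓT hA
    have hpi := Real.pi_gt_three
    have hT10 : 10 ≤ T := hT0.trans t2
    have hTp : 0 < T := by linarith
    have hn0 : (0 : ℝ) ≤ n := Nat.cast_nonneg n
    set LL : ℝ := Real.log (Real.log T) with hLLd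
    have hLT : 0 < Real.log T := by nlinarith
    set T' : ℝ := 2 ^ n * T with hT'
    have h2n : (1 : ℝ) ≤ 2 ^ n := one_le_pow₀ (by norm_num)
    have hTT' : T ≤ T' := le_mul_of_one_le_left hTp.le h2n
    have hlogT' : Real.log T' = n * Real.log 2 + Real.log T := by
      rw [hT', Real.log_mul (by positivity) hTp.ne', Real.log_pow]
    have hl2 : Real.log 2 ≤ 1 := by have := Real.log_two_lt_d9; linarith
    have hl20 : 0 < Real.log 2 := Real.log_pos one_lt_two
    have hLT' : 0 < Real.log T' := by rw [hlogT']; positivity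
    set A' : ℝ := ℓ * Real.log T' / (2 * Real.pi) with hA'
    have hA'0 : 0 < A' := by positivity
    -- `ℓ` is small
    have hℓ1 : ℓ * (4 * LL) ≤ 1 := by
      have h3 : ℓ * Real.log T * (4 * LL) ≤ LL * (4 * LL) := mul_le_mul_of_nonneg_right hℓT (by linarith)
      have h4 : (ℓ * (4 * LL)) * Real.log T ≤ 1 * Real.log T := by nlinarith
      exact le_of_mul_le_mul_right h4 hLT
    have hℓn : ℓ * n ≤ 1 := by nlinarith
    have hAA' : |A - A'| ≤ 2 := by
      have e : A - A' = (A - ℓ * Real.log T / (2 * Real.pi)) - ℓ * n * Real.log 2 / (2 * Real.pi) := by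
        rw [hA', hlogT']; ring
      have h3 : 0 ≤ ℓ * n * Real.log 2 / (2 * Real.pi) := by positivity
      have h4 : ℓ * n * Real.log 2 / (2 * Real.pi) ≤ 1 := by
        rw [div_le_one (by positivity)]
        nlinarith [mul_nonneg hℓ.le hn0]
      rw [abs_le] at hA ⊢
      rw [e]
      constructor <;> linarith [hA.1, hA.2]
    have hA'LL : A' ≤ LL := by
      rw [hA', div_le_iff₀ (by positivity), hlogT', mul_add]
      nlinarith [mul_nonneg hℓ.le hn0]
    have hAlog : A' * Real.log A' ≤ Real.log T' := by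
      have h3 : Real.log A' ≤ A' := by
        have := Real.log_le_sub_one_of_pos hA'0
        linarith
      calc A' * Real.log A' ≤ A' * A' := mul_le_mul_of_nonneg_left h3 hA'0.le
        _ ≤ LL * LL := mul_le_mul hA'LL hA'LL hA'0.le (by linarith)
        _ ≤ Real.log T := by nlinarith
        _ ≤ Real.log T' := Real.log_le_log hTp hTT'
    have hd := hv T' (t2.trans hTT') A' hA'0 hAlog
    obtain ⟨i0, hd2⟩ := dev_abs hC0 hA'0 (by linarith) hd
    have eℓ : 2 * Real.pi * A' / Real.log T' = ℓ := by rw [hA']; field_simp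
    rw [eℓ] at i0 hd2
    have e2 : 2 ^ (n + 1) * T = 2 * T' := by rw [hT', pow_succ]; ring
    rw [e2, ← intervalIntegral.integral_add_adjacent_intervals (F_int ℓ A T T') (F_int ℓ A T' (2 * T'))]
    have h5 : ∫ t in T'..(2 * T'), |(NZ (t + ℓ) : ℝ) - NZ t - A| ≤ T' * (Real.sqrt (C0 + Real.log (1 + LL)) + 2) := by
      calc ∫ t in T'..(2 * T'), |(NZ (t + ℓ) : ℝ) - NZ t - A| ≤
            ∫ t in T'..(2 * T'), (|(NZ (t + ℓ) : ℝ) - NZ t - A'| + 2) := by
            refine intervalIntegral.integral_mono_on (by linarith) (F_int _ _ _ _)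
              ((F_int _ _ _ _).add intervalIntegrable_const) fun t _ => ?_
            have := abs_sub_le ((NZ (t + ℓ) : ℝ) - NZ t - A) ((NZ (t + ℓ) : ℝ) - NZ t - A') 0
            simp only [sub_zero] at this
            have e3 : (NZ (t + ℓ) : ℝ) - NZ t - A - ((NZ (t + ℓ) : ℝ) - NZ t - A') = -(A - A') := by ring
            rw [e3, abs_neg] at this
            linarith
        _ = (∫ t in T'..(2 * T'), |(NZ (t + ℓ) : ℝ) - NZ t - A'|) + 2 * T' := by
            rw [intervalIntegral.integral_add (F_int _ _ _ _) intervalIntegrable_const, intervalIntegral.integral_const,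
              smul_eq_mul]
            ring
        _ ≤ T' * Real.sqrt (C0 + Real.log (1 + A')) + 2 * T' := by linarith
        _ ≤ T' * Real.sqrt (C0 + Real.log (1 + LL)) + 2 * T' := by
            have : Real.sqrt (C0 + Real.log (1 + A')) ≤ Real.sqrt (C0 + Real.log (1 + LL)) :=
              Real.sqrt_le_sqrt (add_le_add_right (Real.log_le_log (by linarith) (by linarith)) _)
            have := mul_le_mul_of_nonneg_left this (show 0 ≤ T' by linarith)
            linarith
        _ = _ := by ring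
    have h6 : T' * (Real.sqrt (C0 + Real.log (1 + LL)) + 2) ≤ ε / 2 * (T * Real.sqrt LL) := by
      calc _ = T * (2 ^ n * (Real.sqrt (C0 + Real.log (1 + LL)) + 2)) := by rw [hT']; ring
        _ ≤ T * (ε / 2 * Real.sqrt LL) := mul_le_mul_of_nonneg_left t5 hTp.le
        _ = _ := by ring
    have h7 := t1 ℓ A hℓ hℓT hA
    linarith

end

end Pool.Agent.Q173.PI
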