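import Mathlib

set_option autoImplicit false

/-! # A lower bound for combinations of shifts of a solution of `g' = g ^ 3 - g ^ 2` -/

namespace Pool.Agent.Q173.PI

open Finset Polynomial

noncomputable section

lemma choose_vdm (n i l : ℕ) (hi : i < n) : (i + l).choose i = ∑ b ∈ range n, i.choose b * l.choose b := by
  rw [Nat.add_choose_eq, Finset.Nat.sum_antidiagonal_eq_sum_range_succ_mk]
  have h1 : ∑ b ∈ range n, i.choose b * l.choose b = ∑ b ∈ range (i + 1), i.choose b * l.choose b := by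
    symm
    refine Finset.sum_subset (Finset.range_subset_range.2 hi) fun b _ hb => ?_
    rw [Finset.mem_range, not_lt] at hb
    rw [Nat.choose_eq_zero_of_lt (by omega), zero_mul]
  rw [h1, ← Finset.sum_range_reflect]
  refine Finset.sum_congr rfl fun b hb => ?_
  rw [Finset.mem_range] at hb
  have hb' : b ≤ i := by omega
  have e1 : i + 1 - 1 - b = i - b := by omega
  simp only [e1]
  rw [Nat.choose_symm hb', show i - (i - b) = b by omega]

/-- the Pascal matrix is invertible -/
lemma pascal (n : ℕ) : ∃ C : ℝ, 0 < C ∧ ∀ (e : Fin n → ℝ) (A : ℝ),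
    (∀ i : Fin n, |∑ l : Fin n, (((i : ℕ) + l).choose i : ℝ) * e l| ≤ A) → ∀ l, |e l| ≤ C * A := by
  set f : (Fin n → ℝ) →ₗ[ℝ] (Fin n → ℝ) :=
    Matrix.mulVecLin (Matrix.of fun i l : Fin n => (((i : ℕ) + l).choose i : ℝ)) with hf
  have hfe : ∀ e i, f e i = ∑ l : Fin n, (((i : ℕ) + l).choose i : ℝ) * e l := fun e i => by
    simp [hf, Matrix.mulVec, dotProduct]
  have hker : LinearMap.ker f = ⊥ := by
    rw [LinearMap.ker_eq_bot']
    intro e he
    have h0 : ∑ i, e i * f e i = 0 := by rw [he]; simp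
    have h1 : ∑ i, e i * f e i = ∑ b ∈ range n, (∑ l : Fin n, ((l : ℕ).choose b : ℝ) * e l) ^ 2 := by
      simp_rw [hfe]
      calc ∑ i : Fin n, e i * ∑ l : Fin n, (((i : ℕ) + l).choose i : ℝ) * e l =
            ∑ i : Fin n, ∑ l : Fin n, ∑ b ∈ range n, (((i : ℕ).choose b : ℝ) * e i) * (((l : ℕ).choose b : ℝ) * e l) := by
            refine Finset.sum_congr rfl fun i _ => ?_
            rw [Finset.mul_sum]
            refine Finset.sum_congr rfl fun l _ => ?_
            rw [choose_vdm n i l i.isLt]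
            push_cast
            rw [Finset.sum_mul, Finset.mul_sum]
            refine Finset.sum_congr rfl fun b _ => ?_
            ring
        _ = ∑ b ∈ range n, ∑ i : Fin n, ∑ l : Fin n, (((i : ℕ).choose b : ℝ) * e i) * (((l : ℕ).choose b : ℝ) * e l) := by
            rw [Finset.sum_congr rfl fun (i : Fin n) _ => Finset.sum_comm]
            exact Finset.sum_comm
        _ = _ := by
            refine Finset.sum_congr rfl fun b _ => ?_
            rw [pow_two, Finset.sum_mul_sum]
    rw [h1] at h0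
    have h2 := (Finset.sum_eq_zero_iff_of_nonneg fun b _ => sq_nonneg _).1 h0
    by_contra hne
    have hex : (Finset.univ.filter fun l : Fin n => e l ≠ 0).Nonempty := by
      obtain ⟨l, hl⟩ := Function.ne_iff.1 hne
      exact ⟨l, by simpa using hl⟩
    obtain ⟨l0, hl0, hmax⟩ := Finset.exists_max_image _ (fun l : Fin n => (l : ℕ)) hex
    have hl0' : e l0 ≠ 0 := by simpa using hl0
    have h3 := h2 l0 (Finset.mem_range.2 l0.isLt)
    rw [sq_eq_zero_iff, Finset.sum_eq_single l0] at h3
    · rw [Nat.choose_self, Nat.cast_one, one_mul] at h3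
      exact hl0' h3
    · intro l _ hl
      by_cases hel : e l = 0
      · rw [hel, mul_zero]
      · have h4 := hmax l (by simpa using hel)
        have h5 : (l : ℕ) < l0 := lt_of_le_of_ne h4 fun h => hl (Fin.ext h)
        rw [Nat.choose_eq_zero_of_lt h5]; simp
    · intro h; exact absurd (Finset.mem_univ _) h
  obtain ⟨K, hK, hanti⟩ := LinearMap.exists_antilipschitzWith f hker
  refine ⟨K, by exact_mod_cast hK, fun e A hA l => ?_⟩
  have hA0 : 0 ≤ A := (abs_nonneg _).trans (hA l)
  have h1 := hanti.le_mul_dist e 0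
  rw [map_zero, dist_zero_right, dist_zero_right] at h1
  have h2 : ‖f e‖ ≤ A := (pi_norm_le_iff_of_nonneg hA0).2 fun i => by rw [hfe]; exact hA i
  have h3 : |e l| ≤ ‖e‖ := norm_le_pi_norm e l
  calc |e l| ≤ K * ‖f e‖ := h3.trans h1
    _ ≤ K * A := mul_le_mul_of_nonneg_left h2 K.2

/-- interpolation -/
lemma interp {n : ℕ} (β : Fin n → ℝ) (S : Finset (Fin n)) (hβ : Set.InjOn β S) : ∃ C : ℝ, 0 < C ∧
    ∀ (d : Fin n → ℝ) (A : ℝ), (∀ j, j ∉ S → d j = 0) → (∀ l < n, |∑ j, d j * β j ^ l| ≤ A) → ∀ j, |d j| ≤ C * A := by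
  set C : ℝ := ∑ j : Fin n, ∑ l ∈ range n, |(Lagrange.basis S β j).coeff l| + 1 with hC
  have hC1 : 0 < C := by
    have : 0 ≤ ∑ j : Fin n, ∑ l ∈ range n, |(Lagrange.basis S β j).coeff l| :=
      Finset.sum_nonneg fun j _ => Finset.sum_nonneg fun l _ => abs_nonneg _
    linarith
  refine ⟨C, hC1, fun d A hd hA j => ?_⟩
  have hn : 0 < n := j.pos
  have hA0 : 0 ≤ A := (abs_nonneg _).trans (hA 0 hn)
  by_cases hj : j ∈ S
  · set p := Lagrange.basis S β j with hp
    have hdeg : p.natDegree < n := by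
      have h1 : p.degree = ((S.card - 1 : ℕ) : WithBot ℕ) := Lagrange.degree_basis hβ hj
      have h2 := Polynomial.natDegree_eq_of_degree_eq_some h1
      rw [h2]
      have h3 : S.card ≤ n := (Finset.card_le_univ S).trans (by simp)
      omega
    have h1 : ∑ i, d i * p.eval (β i) = d j := by
      rw [Finset.sum_eq_single j]
      · rw [Lagrange.eval_basis_self hβ hj, mul_one]
      · intro i _ hij
        by_cases hi : i ∈ S
        · rw [Lagrange.eval_basis_of_ne (Ne.symm hij) hi, mul_zero]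
        · rw [hd i hi, zero_mul]
      · intro h; exact absurd (Finset.mem_univ _) h
    have h2 : ∑ i, d i * p.eval (β i) = ∑ l ∈ range n, p.coeff l * ∑ i, d i * β i ^ l := by
      simp_rw [Polynomial.eval_eq_sum_range' hdeg, Finset.mul_sum]
      rw [Finset.sum_comm]
      refine Finset.sum_congr rfl fun l _ => Finset.sum_congr rfl fun i _ => ?_
      ring
    rw [← h1, h2]
    refine (Finset.abs_sum_le_sum_abs _ _).trans ?_
    calc ∑ l ∈ range n, |p.coeff l * ∑ i, d i * β i ^ l| ≤ ∑ l ∈ range n, |p.coeff l| * A := by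
          refine Finset.sum_le_sum fun l hl => ?_
          rw [abs_mul]
          exact mul_le_mul_of_nonneg_left (hA l (Finset.mem_range.1 hl)) (abs_nonneg _)
      _ = (∑ l ∈ range n, |p.coeff l|) * A := by rw [Finset.sum_mul]
      _ ≤ C * A := by
          refine mul_le_mul_of_nonneg_right ?_ hA0
          have := Finset.single_le_sum (f := fun j : Fin n => ∑ l ∈ range n, |(Lagrange.basis S β j).coeff l|)
            (fun j _ => Finset.sum_nonneg fun l _ => abs_nonneg _) (Finset.mem_univ j)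
          linarith
  · rw [hd j hj, abs_zero]
    positivity

/-- the derivation -/
def DD (P : Polynomial ℝ) : Polynomial ℝ := (X ^ 3 - X ^ 2) * derivative P

/-- the form of the iterates -/
lemma DD_iter (P R : Polynomial ℝ) (hP : P = X + X ^ 2 * R) (l : ℕ) : ∃ R' : Polynomial ℝ,
    DD^[l] P = C ((-1) ^ l * (l.factorial : ℝ)) * X ^ (l + 1) + X ^ (l + 2) * R' := by
  induction l with
  | zero => exact ⟨R, by simp [hP]⟩
  | succ l ih =>
    obtain ⟨R', hR'⟩ := ih
    refine ⟨C ((-1) ^ l * (l.factorial : ℝ) * (l + 1)) + (X - 1) * (C ((l : ℝ) + 2) * R' + X * derivative R'), ?_⟩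
    rw [Function.iterate_succ_apply', hR', DD, derivative_add, derivative_mul, derivative_mul, derivative_C, derivative_X_pow,
      derivative_X_pow, Nat.factorial_succ]
    simp only [zero_mul, zero_add, Nat.add_sub_cancel]
    push_cast
    simp only [map_mul, map_add, map_pow, map_neg, map_one, map_natCast, map_ofNat]
    ring

lemma deriv_sum_pow (a : ℕ → ℝ) (n : ℕ) (s : ℝ) :
    HasDerivAt (fun s => ∑ l ∈ range (n + 1), a l * s ^ l / (l.factorial : ℝ))
      (∑ l ∈ range n, a (l + 1) * s ^ l / (l.factorial : ℝ)) s := by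
  induction n with
  | zero => simpa using hasDerivAt_const s (a 0)
  | succ n ih =>
    have h1 : HasDerivAt (fun s : ℝ => a (n + 1) * s ^ (n + 1) / ((n + 1).factorial : ℝ))
        (a (n + 1) * s ^ n / (n.factorial : ℝ)) s := by
      have h2 := ((hasDerivAt_pow (n + 1) s).const_mul (a (n + 1))).div_const ((n + 1).factorial : ℝ)
      refine h2.congr_deriv ?_
      rw [Nat.factorial_succ, Nat.add_sub_cancel]
      push_cast
      have h3 : (n.factorial : ℝ) ≠ 0 := by positivity
      have h4 : (n : ℝ) + 1 ≠ 0 := by positivity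
      field_simp
    have h5 := ih.add h1
    have e : (fun s : ℝ => ∑ l ∈ range (n + 1 + 1), a l * s ^ l / (l.factorial : ℝ)) =
        (fun s => ∑ l ∈ range (n + 1), a l * s ^ l / (l.factorial : ℝ)) +
          fun s : ℝ => a (n + 1) * s ^ (n + 1) / ((n + 1).factorial : ℝ) := by
      funext s
      rw [Finset.sum_range_succ]; rfl
    rw [e, Finset.sum_range_succ]
    exact h5

/-- Taylor's formula -/
lemma taylor (n : ℕ) : ∀ (F : ℕ → ℝ → ℝ) (y B M : ℝ), 0 ≤ M →
    (∀ l, ∀ t ∈ Set.Icc (y - B) (y + B), HasDerivAt (F l) (F (l + 1) t) t) → (∀ t ∈ Set.Icc (y - B) (y + B), |F n t| ≤ M) →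
    ∀ β, |β| ≤ B → |F 0 (y + β) - ∑ l ∈ range n, F l y * β ^ l / (l.factorial : ℝ)| ≤ M * |β| ^ n := by
  induction n with
  | zero =>
    intro F y B M hM _ hb β hβ
    simp only [range_zero, sum_empty, sub_zero, pow_zero, mul_one]
    rw [abs_le] at hβ
    exact hb _ ⟨by linarith, by linarith⟩
  | succ n ih =>
    intro F y B M hM hF hb β hβ
    have hBβ : Set.Icc (-|β|) |β| ⊆ Set.Icc (-B) B := Set.Icc_subset_Icc (by linarith) hβ
    set h : ℝ → ℝ := fun s => F 0 (y + s) - ∑ l ∈ range (n + 1), F l y * s ^ l / (l.factorial : ℝ) with hh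
    have hd : ∀ s ∈ Set.Icc (-|β|) |β|, HasDerivWithinAt h (F 1 (y + s) -
        ∑ l ∈ range n, F (l + 1) y * s ^ l / (l.factorial : ℝ)) (Set.Icc (-|β|) |β|) s := by
      intro s hs
      have hs' := hBβ hs
      have h1 : HasDerivAt (fun s => F 0 (y + s)) (F 1 (y + s)) s := by
        have := (hF 0 (y + s) ⟨by linarith [hs'.1], by linarith [hs'.2]⟩).comp_const_add y s
        simpa using this
      exact (h1.sub (deriv_sum_pow (fun l => F l y) n s)).hasDerivWithinAt
    have hb1 : ∀ s ∈ Set.Icc (-|β|) |β|, ‖F 1 (y + s) - ∑ l ∈ range n, F (l + 1) y * s ^ l / (l.factorial : ℝ)‖ ≤ M * |β| ^ n := by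
      intro s hs
      have hsa : |s| ≤ |β| := abs_le.2 hs
      have h1 := ih (fun l => F (l + 1)) y B M hM (fun l t ht => hF (l + 1) t ht) hb s (hsa.trans hβ)
      rw [Real.norm_eq_abs]
      exact h1.trans (mul_le_mul_of_nonneg_left (pow_le_pow_left₀ (abs_nonneg _) hsa n) hM)
    have h2 := (convex_Icc (-|β|) |β|).norm_image_sub_le_of_norm_hasDerivWithin_le hd hb1
      (x := 0) (y := β) ⟨by simp, by simp⟩ ⟨neg_abs_le β, le_abs_self β⟩
    have h0 : h 0 = 0 := by
      simp only [hh, add_zero]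
      rw [Finset.sum_range_succ']
      simp
    rw [h0, sub_zero, sub_zero, Real.norm_eq_abs, Real.norm_eq_abs] at h2
    rw [pow_succ, ← mul_assoc]
    exact h2

/-- sizes of the iterates -/
lemma DD_bd (P R : Polynomial ℝ) (hP : P = X + X ^ 2 * R) (N : ℕ) : ∃ K : ℝ, 1 ≤ K ∧ ∀ l < N, ∀ g : ℝ, 0 < g → g ≤ 1 →
    |(DD^[l] P).eval g - (-1) ^ l * (l.factorial : ℝ) * g ^ (l + 1)| ≤ K * g ^ (l + 2) ∧
    |(DD^[l] P).eval g| ≤ K * g ^ (l + 1) := by
  choose R' hR' using DD_iter P R hP
  have hb : ∀ l, ∃ K : ℝ, 0 ≤ K ∧ ∀ g : ℝ, 0 < g → g ≤ 1 → |(R' l).eval g| ≤ K := by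
    intro l
    obtain ⟨K, hK⟩ := isCompact_Icc.exists_bound_of_continuousOn (s := Set.Icc (0 : ℝ) 1)
      (f := fun g => (R' l).eval g) (R' l).continuous.continuousOn
    exact ⟨K, (norm_nonneg _).trans (hK 0 ⟨le_rfl, zero_le_one⟩), fun g h1 h2 => hK g ⟨h1.le, h2⟩⟩
  choose K hK0 hK using hb
  set Z : ℝ := ∑ l ∈ range N, (K l + l.factorial) + 1 with hZ
  have hZl : ∀ l < N, K l + l.factorial ≤ Z := fun l hl => by
    have := Finset.single_le_sum (f := fun l => K l + (l.factorial : ℝ)) (s := range N)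
      (fun i _ => add_nonneg (hK0 i) (Nat.cast_nonneg _)) (Finset.mem_range.2 hl)
    linarith
  refine ⟨Z, ?_, fun l hl g hg0 hg1 => ?_⟩
  · have : 0 ≤ ∑ l ∈ range N, (K l + (l.factorial : ℝ)) :=
      Finset.sum_nonneg fun i _ => add_nonneg (hK0 i) (Nat.cast_nonneg _)
    linarith
  · have hf : (0 : ℝ) ≤ l.factorial := Nat.cast_nonneg _
    have e : (DD^[l] P).eval g = (-1) ^ l * (l.factorial : ℝ) * g ^ (l + 1) + g ^ (l + 2) * (R' l).eval g := by
      rw [hR' l]; simp
    have h1 := hK l g hg0 hg1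
    have h2 : |g ^ (l + 2) * (R' l).eval g| ≤ K l * g ^ (l + 2) := by
      rw [abs_mul, abs_of_pos (by positivity), mul_comm]
      exact mul_le_mul_of_nonneg_right h1 (by positivity)
    constructor
    · rw [e, add_sub_cancel_left]
      refine h2.trans (mul_le_mul_of_nonneg_right ?_ (by positivity))
      linarith [hZl l hl]
    · rw [e]
      have h3 : |(-1) ^ l * (l.factorial : ℝ) * g ^ (l + 1)| = (l.factorial : ℝ) * g ^ (l + 1) := by
        rw [abs_mul, abs_mul, abs_pow, abs_neg, abs_one, one_pow, one_mul, Nat.abs_cast, abs_of_pos (by positivity)]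
      have h4 : g ^ (l + 2) ≤ g ^ (l + 1) := pow_le_pow_of_le_one hg0.le hg1 (by omega)
      have h5 : K l * g ^ (l + 2) ≤ K l * g ^ (l + 1) := mul_le_mul_of_nonneg_left h4 (hK0 l)
      have h6 : 0 < g ^ (l + 1) := by positivity
      calc |(-1) ^ l * (l.factorial : ℝ) * g ^ (l + 1) + g ^ (l + 2) * (R' l).eval g| ≤
            (l.factorial : ℝ) * g ^ (l + 1) + K l * g ^ (l + 1) := by
              refine (abs_add_le _ _).trans ?_
              rw [h3]; linarith
        _ = (K l + l.factorial) * g ^ (l + 1) := by ring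
        _ ≤ Z * g ^ (l + 1) := mul_le_mul_of_nonneg_right (hZl l hl) h6.le

end

end Pool.Agent.Q173.PI
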