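import Pool.Agent.Q173.PI.Lin

set_option autoImplicit false

/-! # The lower bound -/

namespace Pool.Agent.Q173.PI

open Finset Polynomial

noncomputable section

lemma low_step {n : ℕ} (β d : Fin n → ℝ) (P R : Polynomial ℝ) (hP : P = X + X ^ 2 * R)
    {B K : ℝ} (hB0 : 0 ≤ B) (hB : ∀ j, |β j| ≤ B) (hK1 : 1 ≤ K)
    (hK : ∀ l < 2 * n + 1, ∀ g : ℝ, 0 < g → g ≤ 1 →
      |(DD^[l] P).eval g - (-1) ^ l * (l.factorial : ℝ) * g ^ (l + 1)| ≤ K * g ^ (l + 2) ∧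
      |(DD^[l] P).eval g| ≤ K * g ^ (l + 1))
    (g : ℝ → ℝ) (y : ℝ) (h0 : 0 < g y) (h1 : 2 * g y ≤ 1)
    (hg : ∀ t ∈ Set.Icc (y - B) (y + B), HasDerivAt g (g t ^ 3 - g t ^ 2) t ∧ 0 < g t ∧ g t ≤ 2 * g y)
    {i : ℕ} (hi : i < n) {δ : ℝ} (hL : |∑ j, d j * (DD^[i] P).eval (g (y + β j))| ≤ δ) :
    |∑ l ∈ range n, ((i + l).choose i : ℝ) * ((-1) ^ l * (∑ j, d j * β j ^ l) * g y ^ l)| ≤
      δ * (g y)⁻¹ ^ n + K * 2 ^ (2 * n) * B ^ n * (∑ j, |d j|) * g y ^ n +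
        K * g y * ∑ l ∈ range n, |(-1) ^ l * (∑ j, d j * β j ^ l) * g y ^ l| := by
  set ε : ℝ := g y with hε
  set Dl : ℕ → ℝ := fun l => ∑ j, d j * β j ^ l with hDl
  set Nd : ℝ := ∑ j, |d j| with hNd
  have hNd0 : 0 ≤ Nd := Finset.sum_nonneg fun j _ => abs_nonneg _
  have hδ0 : 0 ≤ δ := (abs_nonneg _).trans hL
  set F : ℕ → ℝ → ℝ := fun l t => (DD^[i + l] P).eval (g t) with hF
  have hFd : ∀ l, ∀ t ∈ Set.Icc (y - B) (y + B), HasDerivAt (F l) (F (l + 1) t) t := by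
    intro l t ht
    have h2 := ((DD^[i + l] P).hasDerivAt (g t)).comp t (hg t ht).1
    refine h2.congr_deriv ?_
    simp only [hF]
    rw [show i + (l + 1) = (i + l) + 1 by ring, Function.iterate_succ_apply' DD (i + l) P]
    simp only [DD, eval_mul, eval_sub, eval_pow, eval_X]
    ring
  have hFn : ∀ t ∈ Set.Icc (y - B) (y + B), |F n t| ≤ K * (2 * ε) ^ (i + n + 1) := by
    intro t ht
    obtain ⟨-, h2, h3⟩ := hg t ht
    refine ((hK (i + n) (by omega) (g t) h2 (h3.trans h1)).2).trans ?_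
    exact mul_le_mul_of_nonneg_left (pow_le_pow_left₀ h2.le h3 _) (by linarith)
  have hTay : ∀ j, |(DD^[i] P).eval (g (y + β j)) - ∑ l ∈ range n, F l y * β j ^ l / (l.factorial : ℝ)| ≤
      K * (2 * ε) ^ (i + n + 1) * B ^ n := by
    intro j
    have h2 := taylor n F y B (K * (2 * ε) ^ (i + n + 1)) (by positivity) hFd hFn (β j) (hB j)
    refine h2.trans (mul_le_mul_of_nonneg_left (pow_le_pow_left₀ (abs_nonneg _) (hB j) n) (by positivity))
  -- the sum over `j`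
  have hsum : |(∑ j, d j * (DD^[i] P).eval (g (y + β j))) - ∑ l ∈ range n, F l y * Dl l / (l.factorial : ℝ)| ≤
      Nd * (K * (2 * ε) ^ (i + n + 1) * B ^ n) := by
    have e : (∑ j, d j * (DD^[i] P).eval (g (y + β j))) - ∑ l ∈ range n, F l y * Dl l / (l.factorial : ℝ) =
        ∑ j, d j * ((DD^[i] P).eval (g (y + β j)) - ∑ l ∈ range n, F l y * β j ^ l / (l.factorial : ℝ)) := by
      simp_rw [mul_sub]
      rw [Finset.sum_sub_distrib]
      congr 1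
      simp only [hDl]
      simp_rw [Finset.mul_sum]
      rw [Finset.sum_comm]
      refine Finset.sum_congr rfl fun l _ => ?_
      rw [Finset.sum_div]
      refine Finset.sum_congr rfl fun j _ => ?_
      ring
    rw [e, hNd, Finset.sum_mul]
    refine (Finset.abs_sum_le_sum_abs _ _).trans (Finset.sum_le_sum fun j _ => ?_)
    rw [abs_mul]
    exact mul_le_mul_of_nonneg_left (hTay j) (abs_nonneg _)
  -- the main terms
  have hmain : |(∑ l ∈ range n, F l y * Dl l / (l.factorial : ℝ)) -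
      (-1) ^ i * ((i.factorial : ℝ) * ε ^ (i + 1)) * ∑ l ∈ range n, ((i + l).choose i : ℝ) * ((-1) ^ l * Dl l * ε ^ l)| ≤
      K * ε ^ (i + 2) * ∑ l ∈ range n, |(-1) ^ l * Dl l * ε ^ l| := by
    rw [Finset.mul_sum, ← Finset.sum_sub_distrib, Finset.mul_sum]
    refine (Finset.abs_sum_le_sum_abs _ _).trans (Finset.sum_le_sum fun l hl => ?_)
    rw [Finset.mem_range] at hl
    have hlf : (0 : ℝ) < l.factorial := by exact_mod_cast l.factorial_pos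
    have hlf1 : (1 : ℝ) ≤ l.factorial := by exact_mod_cast l.factorial_pos
    have hfac : ((i + l).choose i : ℝ) * i.factorial * l.factorial = (i + l).factorial := by
      rw [Nat.choose_symm_add]
      exact_mod_cast Nat.add_choose_mul_factorial_mul_factorial i l
    have h2 := (hK (i + l) (by omega) ε h0 (by linarith)).1
    have e : F l y * Dl l / (l.factorial : ℝ) -
        (-1) ^ i * ((i.factorial : ℝ) * ε ^ (i + 1)) * (((i + l).choose i : ℝ) * ((-1) ^ l * Dl l * ε ^ l)) =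
        ((DD^[i + l] P).eval ε - (-1) ^ (i + l) * ((i + l).factorial : ℝ) * ε ^ (i + l + 1)) * (Dl l / l.factorial) := by
      simp only [hF]
      rw [← hε, ← hfac]
      field_simp
      ring
    rw [e, abs_mul]
    have h3 : |Dl l / (l.factorial : ℝ)| ≤ |Dl l| := by
      rw [abs_div, Nat.abs_cast]
      exact div_le_self (abs_nonneg _) hlf1
    have h4 : |(-1) ^ l * Dl l * ε ^ l| = |Dl l| * ε ^ l := by
      rw [abs_mul, abs_mul, abs_pow, abs_neg, abs_one, one_pow, one_mul, abs_of_pos (pow_pos h0 l)]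
    rw [h4]
    calc _ ≤ (K * ε ^ (i + l + 2)) * |Dl l| := mul_le_mul h2 h3 (abs_nonneg _) (by positivity)
      _ = _ := by ring
  set Q : ℝ := ∑ l ∈ range n, ((i + l).choose i : ℝ) * ((-1) ^ l * Dl l * ε ^ l) with hQ
  set E : ℝ := ∑ l ∈ range n, |(-1) ^ l * Dl l * ε ^ l| with hE
  have hE0 : 0 ≤ E := Finset.sum_nonneg fun l _ => abs_nonneg _
  have hif : (1 : ℝ) ≤ i.factorial := by exact_mod_cast i.factorial_pos
  have h5 : (i.factorial : ℝ) * ε ^ (i + 1) * |Q| ≤ δ + Nd * (K * (2 * ε) ^ (i + n + 1) * B ^ n) + K * ε ^ (i + 2) * E := by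
    have e1 : |(-1) ^ i * ((i.factorial : ℝ) * ε ^ (i + 1)) * Q| = (i.factorial : ℝ) * ε ^ (i + 1) * |Q| := by
      rw [abs_mul, abs_mul, abs_pow, abs_neg, abs_one, one_pow, one_mul, abs_of_pos (by positivity)]
    rw [← e1]
    rw [abs_le] at hL hsum hmain ⊢
    constructor <;> linarith [hL.1, hL.2, hsum.1, hsum.2, hmain.1, hmain.2]
  have h6 : ε ^ (i + 1) * |Q| ≤ δ + Nd * (K * (2 * ε) ^ (i + n + 1) * B ^ n) + K * ε ^ (i + 2) * E := by
    refine le_trans ?_ h5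
    refine mul_le_mul_of_nonneg_right ?_ (abs_nonneg _)
    exact le_mul_of_one_le_left (by positivity) hif
  have hεi : 1 ≤ ε⁻¹ := (one_le_inv₀ h0).2 (by linarith)
  have h7 : |Q| ≤ δ * ε⁻¹ ^ (i + 1) + Nd * (K * 2 ^ (i + n + 1) * B ^ n) * ε ^ n + K * ε * E := by
    have hp : 0 < ε ^ (i + 1) := by positivity
    rw [← mul_le_mul_iff_right₀ hp]
    refine h6.trans (le_of_eq ?_)
    have e2 : ε ^ (i + 1) * ε⁻¹ ^ (i + 1) = 1 := by rw [← mul_pow, mul_inv_cancel₀ h0.ne', one_pow]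
    rw [mul_pow, show i + n + 1 = (i + 1) + n by ring, pow_add ε, pow_add ε i 2]
    have e3 : ε ^ (i + 1) * (δ * ε⁻¹ ^ (i + 1) + Nd * (K * 2 ^ (i + 1 + n) * B ^ n) * ε ^ n + K * ε * E) =
      δ * (ε ^ (i + 1) * ε⁻¹ ^ (i + 1)) + ε ^ (i + 1) * (Nd * (K * 2 ^ (i + 1 + n) * B ^ n) * ε ^ n + K * ε * E) := by ring
    rw [e3, e2]
    ring
  refine h7.trans ?_
  have h8 : ε⁻¹ ^ (i + 1) ≤ ε⁻¹ ^ n := pow_le_pow_right₀ hεi hi
  have h9 : (2 : ℝ) ^ (i + n + 1) ≤ 2 ^ (2 * n) := pow_le_pow_right₀ (by norm_num) (by omega)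
  have h10 : δ * ε⁻¹ ^ (i + 1) ≤ δ * ε⁻¹ ^ n := mul_le_mul_of_nonneg_left h8 hδ0
  have h11 : Nd * (K * 2 ^ (i + n + 1) * B ^ n) * ε ^ n ≤ K * 2 ^ (2 * n) * B ^ n * Nd * ε ^ n := by
    have : K * 2 ^ (i + n + 1) * B ^ n ≤ K * 2 ^ (2 * n) * B ^ n := by gcongr
    calc Nd * (K * 2 ^ (i + n + 1) * B ^ n) * ε ^ n ≤ Nd * (K * 2 ^ (2 * n) * B ^ n) * ε ^ n := by gcongr
      _ = _ := by ring
  linarith

/-- **lower bound** -/
theorem low {n : ℕ} (β : Fin n → ℝ) (S : Finset (Fin n)) (hβ : Set.InjOn β S) (P R : Polynomial ℝ)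
    (hP : P = X + X ^ 2 * R) (B : ℝ) (hB : ∀ j, |β j| ≤ B) :
    ∃ C ε0 : ℝ, 0 < C ∧ 0 < ε0 ∧ ∀ (g : ℝ → ℝ) (y : ℝ), 0 < g y → g y ≤ ε0 →
      (∀ t ∈ Set.Icc (y - B) (y + B), HasDerivAt g (g t ^ 3 - g t ^ 2) t ∧ 0 < g t ∧ g t ≤ 2 * g y) →
      ∀ (d : Fin n → ℝ) (δ : ℝ), (∀ j, j ∉ S → d j = 0) →
        (∀ i < n, |∑ j, d j * (DD^[i] P).eval (g (y + β j))| ≤ δ) → ∀ j, |d j| ≤ C * δ * (g y)⁻¹ ^ (2 * n) := by
  obtain ⟨Cp, hCp, hpas⟩ := pascal n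
  obtain ⟨Cv, hCv, hint⟩ := interp β S hβ
  obtain ⟨K, hK1, hK⟩ := DD_bd P R hP (2 * n + 1)
  by_cases hn : n = 0
  · subst hn
    exact ⟨1, 1, one_pos, one_pos, fun g y _ _ _ d δ _ _ j => j.elim0⟩
  have hn1 : (1 : ℝ) ≤ n := by exact_mod_cast Nat.one_le_iff_ne_zero.2 hn
  have hB0 : 0 ≤ B := (abs_nonneg _).trans (hB ⟨0, Nat.pos_of_ne_zero hn⟩)
  set K2 : ℝ := K * 2 ^ (2 * n) * B ^ n with hK2
  have hK20 : 0 ≤ K2 := by positivity
  set Z : ℝ := 2 * n ^ 2 * Cv * Cp with hZ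
  have hZ0 : 0 < Z := by positivity
  refine ⟨2 * Z, min (1 / 2) (min (1 / (2 * (n * Cp * K))) (1 / (2 * (Z * K2 + 1)))), by positivity, by positivity,
    fun g y h0 h1 hg d δ hd hL j => ?_⟩
  set ε : ℝ := g y with hε
  have g1 : ε ≤ 1 / 2 := h1.trans (min_le_left _ _)
  have g2 : ε ≤ 1 / (2 * (n * Cp * K)) := h1.trans ((min_le_right _ _).trans (min_le_left _ _))
  have g3 : ε ≤ 1 / (2 * (Z * K2 + 1)) := h1.trans ((min_le_right _ _).trans (min_le_right _ _))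
  have hδ0 : 0 ≤ δ := (abs_nonneg _).trans (hL 0 (Nat.pos_of_ne_zero hn))
  set Nd : ℝ := ∑ j, |d j| with hNd
  have hNd0 : 0 ≤ Nd := Finset.sum_nonneg fun j _ => abs_nonneg _
  set e : ℕ → ℝ := fun l => (-1) ^ l * (∑ j, d j * β j ^ l) * ε ^ l with he
  set E : ℝ := ∑ l ∈ range n, |e l| with hE
  have hE0 : 0 ≤ E := Finset.sum_nonneg fun l _ => abs_nonneg _
  set A0 : ℝ := δ * ε⁻¹ ^ n + K2 * Nd * ε ^ n with hA0
  have hA00 : 0 ≤ A0 := by positivity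
  have hstep : ∀ i : Fin n, |∑ l : Fin n, (((i : ℕ) + l).choose i : ℝ) * e l| ≤ A0 + K * ε * E := by
    intro i
    have h2 := low_step β d P R hP hB0 hB hK1 hK g y h0 (by linarith) hg i.isLt (hL i i.isLt)
    rw [Fin.sum_univ_eq_sum_range (fun l : ℕ => (((i : ℕ) + l).choose i : ℝ) * e l)]
    refine h2.trans (le_of_eq ?_)
    rw [hA0]
  have hel : ∀ l : Fin n, |e l| ≤ Cp * (A0 + K * ε * E) := hpas (fun l : Fin n => e l) _ hstep
  have hEle : E ≤ n * (Cp * (A0 + K * ε * E)) := by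
    have e0 : E = ∑ l : Fin n, |e l| := (Fin.sum_univ_eq_sum_range (fun l : ℕ => |e l|) n).symm
    calc E = ∑ l : Fin n, |e l| := e0
      _ ≤ ∑ _l : Fin n, Cp * (A0 + K * ε * E) := Finset.sum_le_sum fun l _ => hel l
      _ = n * (Cp * (A0 + K * ε * E)) := by
        rw [Finset.sum_const, Finset.card_univ, Fintype.card_fin, nsmul_eq_mul]
  have hE2 : E ≤ 2 * n * Cp * A0 := by
    have g4 : n * Cp * K * ε ≤ 1 / 2 := by
      have h2 : 0 < n * Cp * K := by positivity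
      rw [le_div_iff₀ (by positivity)] at g2
      linarith
    have h3 : n * (Cp * (A0 + K * ε * E)) = n * Cp * A0 + (n * Cp * K * ε) * E := by ring
    rw [h3] at hEle
    have h4 : (n * Cp * K * ε) * E ≤ 1 / 2 * E := mul_le_mul_of_nonneg_right g4 hE0
    linarith
  have hεi : 1 ≤ ε⁻¹ := (one_le_inv₀ h0).2 (by linarith)
  have hD : ∀ l < n, |∑ j, d j * β j ^ l| ≤ E * ε⁻¹ ^ (n - 1) := by
    intro l hl
    have h2 : |e l| ≤ E := Finset.single_le_sum (f := fun l => |e l|) (fun l _ => abs_nonneg _) (Finset.mem_range.2 hl)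
    have h3 : |e l| = |∑ j, d j * β j ^ l| * ε ^ l := by
      simp only [he]
      rw [abs_mul, abs_mul, abs_pow, abs_neg, abs_one, one_pow, one_mul, abs_of_pos (pow_pos h0 l)]
    rw [h3] at h2
    have h4 : |∑ j, d j * β j ^ l| = |∑ j, d j * β j ^ l| * ε ^ l * ε⁻¹ ^ l := by
      rw [mul_assoc, ← mul_pow, mul_inv_cancel₀ h0.ne', one_pow, mul_one]
    rw [h4]
    exact mul_le_mul h2 (pow_le_pow_right₀ hεi (by omega)) (by positivity) hE0
  have hdj : ∀ j, |d j| ≤ Cv * (E * ε⁻¹ ^ (n - 1)) := hint d _ hd hD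
  have hNdle : Nd ≤ n * (Cv * (E * ε⁻¹ ^ (n - 1))) := by
    rw [hNd]
    refine (Finset.sum_le_sum fun j _ => hdj j).trans (le_of_eq ?_)
    rw [Finset.sum_const, Finset.card_univ, Fintype.card_fin, nsmul_eq_mul]
  have hNd2 : Nd ≤ Z * (δ * ε⁻¹ ^ (2 * n) + K2 * Nd * ε) := by
    have h2 : n * (Cv * (E * ε⁻¹ ^ (n - 1))) ≤ n * (Cv * ((2 * n * Cp * A0) * ε⁻¹ ^ (n - 1))) := by gcongr
    refine hNdle.trans (h2.trans ?_)
    have h3 : n * (Cv * ((2 * n * Cp * A0) * ε⁻¹ ^ (n - 1))) = Z * (A0 * ε⁻¹ ^ (n - 1)) := by rw [hZ]; ring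
    rw [h3]
    refine mul_le_mul_of_nonneg_left ?_ hZ0.le
    rw [hA0, add_mul]
    have h4 : δ * ε⁻¹ ^ n * ε⁻¹ ^ (n - 1) ≤ δ * ε⁻¹ ^ (2 * n) := by
      rw [mul_assoc, ← pow_add]
      exact mul_le_mul_of_nonneg_left (pow_le_pow_right₀ hεi (by omega)) hδ0
    have h5 : K2 * Nd * ε ^ n * ε⁻¹ ^ (n - 1) = K2 * Nd * ε := by
      have : ε ^ n = ε * ε ^ (n - 1) := by rw [← pow_succ']; congr 1; omega
      rw [this, mul_assoc, mul_assoc ε, ← mul_pow, mul_inv_cancel₀ h0.ne', one_pow, mul_one]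
    linarith
  have hfin : Nd ≤ 2 * Z * δ * ε⁻¹ ^ (2 * n) := by
    have g4 : Z * K2 * ε ≤ 1 / 2 := by
      have h2 : 0 ≤ Z * K2 := by positivity
      rw [le_div_iff₀ (by positivity)] at g3
      nlinarith
    have h3 : Z * (δ * ε⁻¹ ^ (2 * n) + K2 * Nd * ε) = Z * δ * ε⁻¹ ^ (2 * n) + (Z * K2 * ε) * Nd := by ring
    rw [h3] at hNd2
    have h4 : (Z * K2 * ε) * Nd ≤ 1 / 2 * Nd := mul_le_mul_of_nonneg_right g4 hNd0
    linarith
  exact (Finset.single_le_sum (f := fun j => |d j|) (fun j _ => abs_nonneg _) (Finset.mem_univ j)).trans hfin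

end

end Pool.Agent.Q173.PI
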