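import Pool.Agent.Helper276.VdC

set_option autoImplicit false

/-! # Derivative tests of arbitrary order -/

namespace Pool.Agent.Q173.PI

open Set MeasureTheory Complex Filter Topology
open Pool.Agent.Helper276.VdC

noncomputable section

/-- a sequence of successive derivatives -/
def Chain (f : ℕ → ℝ → ℝ) (a b : ℝ) : Prop := ∀ j, ∀ x ∈ Icc a b, HasDerivAt (f j) (f (j + 1) x) x

lemma Chain.mono {f : ℕ → ℝ → ℝ} {a b a' b' : ℝ} (h : Chain f a b) (h1 : a ≤ a') (h2 : b' ≤ b) : Chain f a' b' :=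
  fun j x hx => h j x ⟨h1.trans hx.1, hx.2.trans h2⟩

lemma Chain.neg {f : ℕ → ℝ → ℝ} {a b : ℝ} (h : Chain f a b) : Chain (fun j x => -f j x) a b :=
  fun j x hx => (h j x hx).neg

lemma Chain.cont {f : ℕ → ℝ → ℝ} {a b : ℝ} (h : Chain f a b) (j : ℕ) : ContinuousOn (f j) (Icc a b) :=
  fun x hx => (h j x hx).continuousAt.continuousWithinAt

/-- the derivative test of order `i + 2` -/
lemma vdc (i : ℕ) : ∃ C : ℝ, 0 < C ∧ ∀ (f : ℕ → ℝ → ℝ) (a b l : ℝ), a ≤ b → 0 < l → Chain f a b →
    ((∀ x ∈ Icc a b, l ≤ f (i + 2) x) ∨ (∀ x ∈ Icc a b, f (i + 2) x ≤ -l)) →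
    ‖∫ x in a..b, cexp (I * (f 0 x : ℂ))‖ ≤ C * l ^ (-(1 / ((i : ℝ) + 2))) := by
  induction i with
  | zero =>
    refine ⟨8, by norm_num, fun f a b l hab hl hf hs => ?_⟩
    have e : 8 * l ^ (-(1 / (((0 : ℕ) : ℝ) + 2))) = 8 / Real.sqrt l := by
      rw [Real.sqrt_eq_rpow, Real.rpow_neg hl.le, div_eq_mul_inv]
      norm_num [div_eq_mul_inv]
    rw [e]
    rcases hs with h | h
    · exact second_test_pos hab hl (hf 0) (hf 1) (hf.cont 2) h
    · exact second_test_neg hab hl (hf 0) (hf 1) (hf.cont 2) h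
  | succ i ih =>
    obtain ⟨C, hC, hih⟩ := ih
    have hpos : ∀ (f : ℕ → ℝ → ℝ) (a b l : ℝ), a ≤ b → 0 < l → Chain f a b → (∀ x ∈ Icc a b, l ≤ f (i + 1 + 2) x) →
        ‖∫ x in a..b, cexp (I * (f 0 x : ℂ))‖ ≤ (2 * C + 2) * l ^ (-(1 / (((i + 1 : ℕ) : ℝ) + 2))) := by
      intro f a b l hab hl hf hlow
      have hslope : ∀ x ∈ Icc a b, ∀ y ∈ Icc a b, x ≤ y → l * (y - x) ≤ f (i + 2) y - f (i + 2) x := by
        intro x hx y hy hxy
        rcases hxy.eq_or_lt with rfl | hlt
        · simp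
        · have hsub : Icc x y ⊆ Icc a b := Icc_subset_Icc hx.1 hy.2
          obtain ⟨z, hz, hz2⟩ := exists_hasDerivAt_eq_slope (f (i + 2)) (f (i + 2 + 1)) hlt ((hf.cont (i + 2)).mono hsub)
            (fun z hz => hf (i + 2) z (hsub ⟨hz.1.le, hz.2.le⟩))
          have h3 := hlow z (hsub ⟨hz.1.le, hz.2.le⟩)
          rw [show i + 1 + 2 = i + 2 + 1 by ring, hz2, le_div_iff₀ (by linarith)] at h3
          exact h3
      obtain ⟨c, hc, hcR, hcL⟩ := exists_cross hab (hf.cont (i + 2)) hslope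
      set p : ℝ := 1 / (((i + 1 : ℕ) : ℝ) + 2) with hp
      set η : ℝ := l ^ (-p) with hη
      have hη0 : 0 < η := Real.rpow_pos_of_pos hl _
      have hlη : 0 < l * η := mul_pos hl hη0
      have hB : (l * η) ^ (-(1 / ((i : ℝ) + 2))) = η := by
        have e1 : l * η = l ^ (1 - p) := by
          rw [hη, show (1 - p) = 1 + -p by ring, Real.rpow_add hl, Real.rpow_one]
        rw [e1, hη, ← Real.rpow_mul hl.le]
        congr 1
        rw [hp]
        push_cast
        have h2 : (i : ℝ) + 2 ≠ 0 := by positivity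
        have h3 : (i : ℝ) + 1 + 2 ≠ 0 := by positivity
        field_simp
        ring
      have hmain := split_bound (F := fun x => cexp (I * (f 0 x : ℂ))) (η := η)
        (B := C * η) (c := c)
        ((continuousOn_const.mul (Complex.continuous_ofReal.comp_continuousOn (hf.cont 0))).cexp)
        (fun x _ => by rw [Complex.norm_exp_I_mul_ofReal]) hη0.le (by positivity) hc
        (by
          intro hle
          have h3 := hih f a (c - η) (l * η) hle hlη (hf.mono le_rfl (by linarith [hc.2])) (Or.inr ?_)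
          · rwa [hB] at h3
          · intro x hx
            have h3 := hcL x ⟨hx.1, by linarith [hc.2, hx.2]⟩ (by linarith [hx.2])
            have h4 : l * η ≤ l * (c - x) := mul_le_mul_of_nonneg_left (by linarith [hx.2]) hl.le
            linarith)
        (by
          intro hle
          have h3 := hih f (c + η) b (l * η) hle hlη (hf.mono (by linarith [hc.1]) le_rfl) (Or.inl ?_)
          · rwa [hB] at h3
          · intro x hx
            have h3 := hcR x ⟨by linarith [hc.1, hx.1], hx.2⟩ (by linarith [hx.1])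
            have h4 : l * η ≤ l * (x - c) := mul_le_mul_of_nonneg_left (by linarith [hx.1]) hl.le
            linarith)
      refine hmain.trans (le_of_eq ?_)
      ring
    refine ⟨2 * C + 2, by positivity, fun f a b l hab hl hf hs => ?_⟩
    rcases hs with h | h
    · exact hpos f a b l hab hl hf h
    · have h3 := hpos (fun j x => -f j x) a b l hab hl hf.neg (fun x hx => by have := h x hx; linarith)
      rwa [norm_integral_conj] at h3

/-- decomposition into cells -/
lemma cells (n : ℕ) : ∃ C : ℝ, 0 < C ∧ ∀ (f : ℕ → ℝ → ℝ) (a b l L : ℝ), a ≤ b → 1 ≤ l → 0 < L → Chain f a b →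
    (∀ x ∈ Icc a b, ∃ i < n, l ≤ |f (i + 2) x|) → (∀ x ∈ Icc a b, ∀ i < n, |f (i + 3) x| ≤ L) →
    ‖∫ x in a..b, cexp (I * (f 0 x : ℂ))‖ ≤ C * ((b - a) * L / l + 1) * l ^ (-(1 / ((n : ℝ) + 1))) := by
  choose K hK hvdc using vdc
  set C : ℝ := ∑ i ∈ Finset.range n, K i + 1 with hC
  have hC0 : 0 < C := by
    have : 0 ≤ ∑ i ∈ Finset.range n, K i := Finset.sum_nonneg fun i _ => (hK i).le
    linarith
  have hKC : ∀ i < n, K i ≤ C := fun i hi => by
    have := Finset.single_le_sum (f := K) (s := Finset.range n) (fun i _ => (hK i).le) (Finset.mem_range.2 hi)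
    linarith
  refine ⟨4 * C, by positivity, fun f a b l L hab hl hL hf hex hup => ?_⟩
  have hl0 : 0 < l := by linarith
  set N : ℕ := ⌈(b - a) * (2 * L) / l⌉₊ + 1 with hN
  have hN0 : (0 : ℝ) < N := by positivity
  set η : ℝ := (b - a) / N with hη
  have hη0 : 0 ≤ η := div_nonneg (by linarith) hN0.le
  have hηN : η * N = b - a := by rw [hη]; field_simp
  have hNge : (b - a) * (2 * L) / l ≤ N := by
    have := Nat.le_ceil ((b - a) * (2 * L) / l)
    rw [hN]; push_cast; linarith
  have hηL : L * η ≤ l / 2 := by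
    rw [div_le_iff₀ hl0] at hNge
    rw [hη, mul_div_assoc', div_le_iff₀ hN0]
    linarith
  have hNle : (N : ℝ) ≤ 2 * ((b - a) * L / l + 1) := by
    have h0 : 0 ≤ (b - a) * (2 * L) / l := div_nonneg (mul_nonneg (by linarith) (by linarith)) hl0.le
    have := Nat.ceil_lt_add_one h0
    rw [hN]; push_cast
    have e : (b - a) * (2 * L) / l = 2 * ((b - a) * L / l) := by ring
    linarith
  set g : ℕ → ℝ := fun m => a + m * η with hg
  have hgN : g N = b := by rw [hg]; simp only; linarith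
  have hg0 : g 0 = a := by rw [hg]; simp
  have hgm : ∀ m, g m ≤ g (m + 1) := fun m => by simp only [hg]; push_cast; linarith
  have hga : ∀ m, a ≤ g m := fun m => by
    simp only [hg]
    have : 0 ≤ (m : ℝ) * η := by positivity
    linarith
  have hgb : ∀ m ≤ N, g m ≤ b := fun m hm => by
    rw [← hgN]
    simp only [hg]
    have : (m : ℝ) ≤ N := by exact_mod_cast hm
    have := mul_le_mul_of_nonneg_right this hη0
    linarith
  have hcont : ContinuousOn (fun x => cexp (I * (f 0 x : ℂ))) (Icc a b) :=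
    (continuousOn_const.mul (Complex.continuous_ofReal.comp_continuousOn (hf.cont 0))).cexp
  have hint : ∀ m < N, IntervalIntegrable (fun x => cexp (I * (f 0 x : ℂ))) volume (g m) (g (m + 1)) := by
    intro m hm
    apply ContinuousOn.intervalIntegrable
    rw [uIcc_of_le (hgm m)]
    exact hcont.mono (Icc_subset_Icc (hga m) (hgb (m + 1) hm))
  have hsum := intervalIntegral.sum_integral_adjacent_intervals hint
  rw [hg0, hgN] at hsum
  rw [← hsum]
  have hcell : ∀ m ∈ Finset.range N, ‖∫ x in (g m)..(g (m + 1)), cexp (I * (f 0 x : ℂ))‖ ≤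
      2 * C * l ^ (-(1 / ((n : ℝ) + 1))) := by
    intro m hm
    have hmN : m < N := Finset.mem_range.1 hm
    have hxm : g m ∈ Icc a b := ⟨hga m, hgb m hmN.le⟩
    obtain ⟨i, hi, hlow⟩ := hex (g m) hxm
    have hsub : Icc (g m) (g (m + 1)) ⊆ Icc a b := Icc_subset_Icc (hga m) (hgb (m + 1) hmN)
    have hvar : ∀ x ∈ Icc (g m) (g (m + 1)), |f (i + 2) x - f (i + 2) (g m)| ≤ l / 2 := by
      intro x hx
      have h1 := (convex_Icc (g m) (g (m + 1))).norm_image_sub_le_of_norm_hasDerivWithin_le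
        (f := f (i + 2)) (f' := f (i + 2 + 1)) (C := L)
        (fun y hy => (hf (i + 2) y (hsub hy)).hasDerivWithinAt) (fun y hy => hup y (hsub hy) i hi)
        (left_mem_Icc.2 (hgm m)) hx
      rw [Real.norm_eq_abs, Real.norm_eq_abs] at h1
      refine h1.trans (le_trans (mul_le_mul_of_nonneg_left ?_ hL.le) hηL)
      rw [abs_of_nonneg (by linarith [hx.1])]
      have := hx.2
      simp only [hg] at this ⊢
      push_cast at this
      linarith
    have hs : (∀ x ∈ Icc (g m) (g (m + 1)), l / 2 ≤ f (i + 2) x) ∨ (∀ x ∈ Icc (g m) (g (m + 1)), f (i + 2) x ≤ -(l / 2)) := by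
      rcases le_abs.1 hlow with h | h
      · left
        intro x hx
        have := (abs_le.1 (hvar x hx)).1
        linarith
      · right
        intro x hx
        have := (abs_le.1 (hvar x hx)).2
        linarith
    have h2 := hvdc i f (g m) (g (m + 1)) (l / 2) (hgm m) (by positivity) (hf.mono (hga m) (hgb (m + 1) hmN)) hs
    have hi2 : (0 : ℝ) < (i : ℝ) + 2 := by positivity
    have h3 : (l / 2) ^ (-(1 / ((i : ℝ) + 2))) ≤ 2 * l ^ (-(1 / ((n : ℝ) + 1))) := by
      rw [div_eq_mul_inv, Real.mul_rpow hl0.le (by norm_num), mul_comm]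
      refine mul_le_mul ?_ ?_ (Real.rpow_nonneg hl0.le _) (by norm_num)
      · rw [Real.inv_rpow (by norm_num), Real.rpow_neg (by norm_num), inv_inv]
        calc (2 : ℝ) ^ (1 / ((i : ℝ) + 2)) ≤ 2 ^ (1 : ℝ) :=
              Real.rpow_le_rpow_of_exponent_le one_le_two (by rw [div_le_one hi2]; linarith [(Nat.cast_nonneg i : (0:ℝ) ≤ i)])
          _ = 2 := Real.rpow_one _
      · refine Real.rpow_le_rpow_of_exponent_le hl (neg_le_neg ?_)
        refine one_div_le_one_div_of_le hi2 ?_
        have : (i : ℝ) + 1 ≤ n := by exact_mod_cast hi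
        linarith
    calc _ ≤ K i * (l / 2) ^ (-(1 / ((i : ℝ) + 2))) := h2
      _ ≤ C * (2 * l ^ (-(1 / ((n : ℝ) + 1)))) := mul_le_mul (hKC i hi) h3 (Real.rpow_nonneg (by positivity) _) hC0.le
      _ = _ := by ring
  refine (norm_sum_le _ _).trans ((Finset.sum_le_sum hcell).trans ?_)
  rw [Finset.sum_const, Finset.card_range, nsmul_eq_mul]
  have hp : 0 ≤ 2 * C * l ^ (-(1 / ((n : ℝ) + 1))) := by positivity
  calc (N : ℝ) * (2 * C * l ^ (-(1 / ((n : ℝ) + 1)))) ≤ 2 * ((b - a) * L / l + 1) * (2 * C * l ^ (-(1 / ((n : ℝ) + 1)))) :=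
        mul_le_mul_of_nonneg_right hNle hp
    _ = _ := by ring

/-- an exponential amplitude -/
lemma ampl {F : ℝ → ℂ} (hF : Continuous F) {a b M : ℝ} (hab : a ≤ b) (hM : ∀ y ∈ Icc a b, ‖∫ x in a..y, F x‖ ≤ M) :
    ‖∫ x in a..b, Real.exp x • F x‖ ≤ 2 * Real.exp b * M := by
  have hM0 : 0 ≤ M := (norm_nonneg _).trans (hM a ⟨le_rfl, hab⟩)
  set Φ : ℝ → ℂ := fun y => ∫ x in a..y, F x with hΦ
  have hd : ∀ y, HasDerivAt Φ (F y) y := fun y => intervalIntegral.integral_hasDerivAt_right
    (hF.intervalIntegrable _ _) (hF.stronglyMeasurableAtFilter _ _) hF.continuousAt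
  have hΦc : Continuous Φ := continuous_iff_continuousAt.2 fun y => (hd y).continuousAt
  have hpart := intervalIntegral.integral_smul_deriv_eq_deriv_smul (u := Real.exp) (v := Φ) (u' := Real.exp) (v' := F)
    (a := a) (b := b) (fun x _ => Real.hasDerivAt_exp x) (fun x _ => hd x)
    (Real.continuous_exp.intervalIntegrable _ _) (hF.intervalIntegrable _ _)
  rw [hpart]
  have hΦa : Φ a = 0 := by simp [hΦ]
  rw [hΦa, smul_zero, sub_zero]
  have h1 : ‖Real.exp b • Φ b‖ ≤ Real.exp b * M := by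
    rw [norm_smul, Real.norm_eq_abs, abs_of_pos (Real.exp_pos b)]
    exact mul_le_mul_of_nonneg_left (hM b ⟨hab, le_rfl⟩) (Real.exp_pos b).le
  have h2 : ‖∫ x in a..b, Real.exp x • Φ x‖ ≤ Real.exp b * M := by
    have h3 : ‖∫ x in a..b, Real.exp x • Φ x‖ ≤ ∫ x in a..b, Real.exp x * M := by
      refine intervalIntegral.norm_integral_le_of_norm_le hab ?_ ((Real.continuous_exp.mul continuous_const).intervalIntegrable _ _)
      refine Filter.Eventually.of_forall fun x hx => ?_
      rw [norm_smul, Real.norm_eq_abs, abs_of_pos (Real.exp_pos x)]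
      exact mul_le_mul_of_nonneg_left (hM x ⟨hx.1.le, hx.2⟩) (Real.exp_pos x).le
    refine h3.trans ?_
    rw [intervalIntegral.integral_mul_const, integral_exp]
    have := Real.exp_pos a
    nlinarith
  calc ‖Real.exp b • Φ b - ∫ x in a..b, Real.exp x • Φ x‖ ≤ ‖Real.exp b • Φ b‖ + ‖∫ x in a..b, Real.exp x • Φ x‖ := norm_sub_le _ _
    _ ≤ 2 * Real.exp b * M := by linarith

end

end Pool.Agent.Q173.PI
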