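import Pool.Agent.Q173.PI.Wf
import Pool.Agent.Q173.PI.Vdc
import Pool.Agent.Q173.JD.Clt

set_option autoImplicit false

/-! # The exponential integrals -/

namespace Pool.Agent.Q173.PI

open Finset Polynomial Filter Topology
open Pool.Agent.Q173.JD (Osc)

noncomputable section

variable {n : ℕ}

/-- the lower bound for a group of functions -/
lemma grp (al be : Fin n → ℝ) (hal : ∀ j, 0 < al j) (hinj : ∀ i j, al i = al j → be i = be j → i = j) :
    ∃ C : ℝ, 0 < C ∧ ∀ᶠ x : ℝ in atTop, ∀ (j0 : Fin n) (d : Fin n → ℝ) (δ : ℝ), (∀ j, al j ≠ al j0 → d j = 0) →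
      (∀ i < n, |∑ j, d j * (Qm (i + 1)).eval (gw (al j0 * x + be j))| ≤ δ) → |d j0| ≤ C * δ * x ^ (2 * n) := by
  classical
  set B : ℝ := ∑ j, |be j| with hB
  have hB0 : 0 ≤ B := Finset.sum_nonneg fun j _ => abs_nonneg _
  have hBj : ∀ j, |be j| ≤ B := fun j => Finset.single_le_sum (f := fun j => |be j|) (fun j _ => abs_nonneg _) (Finset.mem_univ j)
  have hone : ∀ j0 : Fin n, ∃ C : ℝ, 0 < C ∧ ∀ᶠ x : ℝ in atTop, ∀ (d : Fin n → ℝ) (δ : ℝ), (∀ j, al j ≠ al j0 → d j = 0) →
      (∀ i < n, |∑ j, d j * (Qm (i + 1)).eval (gw (al j0 * x + be j))| ≤ δ) → |d j0| ≤ C * δ * x ^ (2 * n) := by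
    intro j0
    have hn : 0 < n := j0.pos
    have hinS : Set.InjOn be ((Finset.univ.filter fun j => al j = al j0 : Finset (Fin n)) : Set (Fin n)) := by
      intro i hi j hj hij
      simp only [Finset.coe_filter, Finset.mem_univ, true_and, Set.mem_ofPred_eq] at hi hj
      exact hinj i j (hi.trans hj.symm) hij
    obtain ⟨C, ε0, hC, hε0, hlow⟩ := low be (Finset.univ.filter fun j => al j = al j0) hinS (X + DD X) (X - 1)
      (by unfold DD; rw [derivative_X]; ring) B hBj
    refine ⟨C * 2 ^ n * al j0 ^ (2 * n), by have := hal j0; positivity, ?_⟩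
    have hylim : Tendsto (fun x : ℝ => al j0 * x) atTop atTop := tendsto_id.const_mul_atTop (hal j0)
    have hwlim := w_lim.comp hylim
    filter_upwards [hwlim.eventually_ge_atTop (max (2 * B) ε0⁻¹), hylim.eventually_ge_atTop 2, eventually_gt_atTop 0]
      with x h1 h2 h3 d δ hd hδ
    set y : ℝ := al j0 * x with hy
    have hδ0 : 0 ≤ δ := (abs_nonneg _).trans (hδ 0 hn)
    have hwB : 2 * B ≤ w y := (le_max_left _ _).trans h1
    have hwε : ε0⁻¹ ≤ w y := (le_max_right _ _).trans h1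
    have hw0 : 0 < w y := by linarith [w_gt y]
    have hgε : gw y ≤ ε0 := by
      unfold gw
      rw [inv_le_comm₀ hw0 hε0]
      exact hwε
    have hloc : ∀ t ∈ Set.Icc (y - B) (y + B), HasDerivAt gw (gw t ^ 3 - gw t ^ 2) t ∧ 0 < gw t ∧ gw t ≤ 2 * gw y := by
      intro t ht
      refine ⟨gw_deriv t, gw_pos t, ?_⟩
      have h4 : w y / 2 ≤ w t := by
        rcases le_total t y with h | h
        · have h5 := (w_mono h).2
          have h6 := ht.1
          linarith
        · have h5 := (w_mono h).1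
          linarith
      unfold gw
      rw [← div_eq_mul_inv, inv_le_comm₀ (by linarith [w_gt t]) (by positivity), inv_div]
      exact h4
    have hLs : ∀ A B : Polynomial ℝ, (∑ j, d j * (A - B).eval (gw (y + be j))) =
        (∑ j, d j * A.eval (gw (y + be j))) - ∑ j, d j * B.eval (gw (y + be j)) := by
      intro A B
      rw [← Finset.sum_sub_distrib]
      refine Finset.sum_congr rfl fun j _ => ?_
      rw [eval_sub]; ring
    have hc := conv (n := n) (fun A => ∑ j, d j * A.eval (gw (y + be j))) hLs (X + DD X) hδ0 (fun i hi => by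
      have := hδ i hi
      rw [Qm, Function.iterate_succ_apply] at this
      exact this)
    have h5 := hlow gw y (gw_pos y) hgε hloc d (2 ^ n * δ) (fun j hj => hd j (by simpa using hj)) (fun i hi => by
      refine (hc i hi).trans (mul_le_mul_of_nonneg_right (pow_le_pow_right₀ one_le_two hi.le) hδ0)) j0
    have h6 : (gw y)⁻¹ ≤ al j0 * x := by
      unfold gw
      rw [inv_inv]
      exact (w_size h2).2
    have h7 : (gw y)⁻¹ ^ (2 * n) ≤ (al j0 * x) ^ (2 * n) := pow_le_pow_left₀ (inv_nonneg.2 (gw_pos y).le) h6 _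
    calc |d j0| ≤ C * (2 ^ n * δ) * (gw y)⁻¹ ^ (2 * n) := h5
      _ ≤ C * (2 ^ n * δ) * (al j0 * x) ^ (2 * n) := mul_le_mul_of_nonneg_left h7 (by positivity)
      _ = C * 2 ^ n * al j0 ^ (2 * n) * δ * x ^ (2 * n) := by rw [mul_pow]; ring
  choose C hC hCx using hone
  refine ⟨∑ j, C j + 1, ?_, ?_⟩
  · have : 0 ≤ ∑ j, C j := Finset.sum_nonneg fun j _ => (hC j).le
    linarith
  · filter_upwards [eventually_all.2 hCx, eventually_ge_atTop 0] with x hx hx0 j0 d δ hd hδ
    have hδ0 : 0 ≤ δ := (abs_nonneg _).trans (hδ 0 j0.pos)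
    refine (hx j0 d δ hd hδ).trans ?_
    refine mul_le_mul_of_nonneg_right (mul_le_mul_of_nonneg_right ?_ hδ0) (by positivity)
    have := Finset.single_le_sum (f := C) (fun j _ => (hC j).le) (Finset.mem_univ j0)
    linarith

/-- the functions `W (e ^ be * t ^ al)` -/
def phi (al be : Fin n → ℝ) (j : Fin n) (t : ℝ) : ℝ := 2 * Real.pi * Real.exp (w (al j * Real.log t + be j))

/-- the chain of the phase in `x = log t` -/
def Psi (al be lam : Fin n → ℝ) (m : ℕ) (x : ℝ) : ℝ := ∑ j, lam j * (al j ^ m * Vc m (al j * x + be j))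

lemma Psi_deriv (al be lam : Fin n → ℝ) (m : ℕ) (x : ℝ) : HasDerivAt (Psi al be lam m) (Psi al be lam (m + 1) x) x := by
  have h := HasDerivAt.fun_sum (u := Finset.univ) (A := fun (j : Fin n) (x : ℝ) => lam j * (al j ^ m * Vc m (al j * x + be j)))
    (A' := fun j => lam j * (al j ^ (m + 1) * Vc (m + 1) (al j * x + be j))) (x := x) fun j _ => by
      have h1 : HasDerivAt (fun x : ℝ => al j * x + be j) (al j) x := by
        simpa using ((hasDerivAt_id x).const_mul (al j)).add_const (be j)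
      have h2 := (((Vc_deriv m (al j * x + be j)).comp x h1).const_mul (al j ^ m)).const_mul (lam j)
      refine h2.congr_deriv ?_
      rw [pow_succ]; ring
  exact h

/-- the size of a term -/
lemma Vc_bd {K : ℝ} {N m : ℕ} (hK : ∀ m < N, ∀ g : ℝ, 0 < g → g ≤ 1 → |(Qm m).eval g| ≤ K) (hm : m < N) (y : ℝ) :
    |Vc (m + 1) y| ≤ 2 * Real.pi * Real.exp y * K := by
  simp only [Vc]
  have h1 := hK m hm (gw y) (gw_pos y) (gw_lt y).le
  have h2 : 0 < 2 * Real.pi * Real.exp y := by positivity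
  rw [abs_mul, abs_of_pos h2]
  exact mul_le_mul_of_nonneg_left h1 h2.le

lemma log_pow_le (k : ℕ) (Z : ℝ) {η : ℝ} (hη : 0 < η) : ∀ᶠ T : ℝ in atTop, Z * Real.log (2 * T) ^ k ≤ T ^ η := by
  have hc : 0 < 1 / ((|Z| + 1) * 2 ^ η) := by positivity
  have h := (isLittleO_log_rpow_rpow_atTop (k : ℝ) hη).def hc
  have h2 : Tendsto (fun T : ℝ => 2 * T) atTop atTop := tendsto_id.const_mul_atTop two_pos
  filter_upwards [h2.eventually h, eventually_ge_atTop 1] with T h3 hT
  have hL : 0 ≤ Real.log (2 * T) := Real.log_nonneg (by linarith)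
  rw [Real.rpow_natCast, Real.norm_of_nonneg (by positivity), Real.norm_of_nonneg (by positivity),
    Real.mul_rpow (by norm_num) (by linarith)] at h3
  have h4 : (|Z| + 1) * Real.log (2 * T) ^ k ≤ T ^ η := by
    calc (|Z| + 1) * Real.log (2 * T) ^ k ≤ (|Z| + 1) * (1 / ((|Z| + 1) * 2 ^ η) * (2 ^ η * T ^ η)) :=
          mul_le_mul_of_nonneg_left h3 (by positivity)
      _ = T ^ η := by
          have : (|Z| + 1) ≠ 0 := by positivity
          field_simp
  refine le_trans (mul_le_mul_of_nonneg_right ?_ (by positivity)) h4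
  linarith [le_abs_self Z]

/-- **no resonances between the functions `W (e ^ be * t ^ al)`** -/
theorem Osc_phi (al be : Fin n → ℝ) (hal : ∀ j, 0 < al j) (hinj : ∀ i j, al i = al j → be i = be j → i = j) :
    Osc (phi al be) := by
  classical
  obtain ⟨κ0, hκ0, hκ01, hκal⟩ : ∃ κ0 : ℝ, 0 < κ0 ∧ κ0 ≤ 1 ∧ ∀ j, κ0 ≤ al j := by
    by_cases hne : Nonempty (Fin n)
    · obtain ⟨i, -, hi⟩ := Finset.exists_min_image Finset.univ al Finset.univ_nonempty
      exact ⟨min (al i) 1, lt_min (hal i) one_pos, min_le_right _ _, fun j => (min_le_left _ _).trans (hi j (Finset.mem_univ j))⟩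
    · exact ⟨1, one_pos, le_rfl, fun i => absurd ⟨i⟩ hne⟩
  obtain ⟨δ, hδ, hδκ, hδ2⟩ : ∃ δ : ℝ, 0 < δ ∧ δ ≤ κ0 ∧ ∀ i j, al i ≠ al j → δ ≤ |al i - al j| := by
    by_cases hne : (Finset.univ.filter fun p : Fin n × Fin n => al p.1 ≠ al p.2).Nonempty
    · obtain ⟨p, hp, hmin⟩ := Finset.exists_min_image _ (fun p : Fin n × Fin n => |al p.1 - al p.2|) hne
      rw [Finset.mem_filter] at hp
      refine ⟨min |al p.1 - al p.2| κ0, lt_min (abs_pos.2 (sub_ne_zero.2 hp.2)) hκ0, min_le_right _ _, fun i j hij => ?_⟩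
      exact (min_le_left _ _).trans (hmin (i, j) (by simp [hij]))
    · exact ⟨κ0, hκ0, le_rfl, fun i j hij => absurd ⟨(i, j), by simp [hij]⟩ hne⟩
  set A : ℝ := ∑ j, al j + 1 with hA
  have hA1 : 1 ≤ A := by
    have : 0 ≤ ∑ j, al j := Finset.sum_nonneg fun j _ => (hal j).le
    linarith
  have hAj : ∀ j, al j ≤ A := fun j => by
    have := Finset.single_le_sum (f := al) (fun j _ => (hal j).le) (Finset.mem_univ j)
    linarith
  set Bb : ℝ := ∑ j, |be j| with hBb
  have hBb0 : 0 ≤ Bb := Finset.sum_nonneg fun j _ => abs_nonneg _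
  have hBj : ∀ j, |be j| ≤ Bb := fun j => Finset.single_le_sum (f := fun j => |be j|) (fun j _ => abs_nonneg _) (Finset.mem_univ j)
  obtain ⟨K, hK1, hK⟩ := Qm_bd (n + 3)
  obtain ⟨Cg, hCg, hgrp⟩ := grp al be hal hinj
  obtain ⟨Cc, hCc, hcell⟩ := cells n
  have hpi := Real.pi_pos
  set Kr : ℝ := n * (A ^ (n + 3) * (2 * Real.pi * Real.exp Bb * K)) + 1 with hKr
  have hKr0 : 0 < Kr := by positivity
  set c1 : ℝ := Real.exp (-Bb) * κ0 ^ (n + 2) / (4 * Cg) with hc1
  have hc10 : 0 < c1 := by positivity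
  set κ : ℝ := κ0 / (4 * (n + 1)) with hκd
  have hκ : 0 < κ := by positivity
  obtain ⟨N, hN⟩ := exists_nat_ge (4 * κ / δ)
  refine ⟨4 * Cc * (Kr * 2 ^ A / c1 + 1) + 1, κ, N + 2, by positivity, hκ, ?_⟩
  have hloglim : Tendsto Real.log atTop atTop := Real.tendsto_log_atTop
  obtain ⟨X0, hX0⟩ := eventually_atTop.1 hgrp
  filter_upwards [hloglim.eventually_ge_atTop (max X0 1), eventually_ge_atTop 1,
    log_pow_le (2 * n) (4 * Cg * κ0⁻¹ ^ (n + 2) * Kr * Real.exp Bb) (half_pos hδ),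
    log_pow_le (2 * n) c1⁻¹ (show (0:ℝ) < κ0 / 4 by positivity), log_pow_le (2 * n) 1 hκ] with T t1 hT1 t3 t4 t5 ρ hρ hρ1 lam hlam1 hlam2 hlam3
  have hT0 : 0 < T := by linarith
  have hρi : 1 ≤ ρ⁻¹ := (one_le_inv₀ hρ).2 hρ1
  have hρi0 : 0 < ρ⁻¹ := by linarith
  have hTp : 0 < T ^ (1 - κ) := Real.rpow_pos_of_pos hT0 _
  have hlogT : 1 ≤ Real.log T := (le_max_right _ _).trans t1
  have hlogX : X0 ≤ Real.log T := (le_max_left _ _).trans t1
  have hlog2 : Real.log (2 * T) = Real.log 2 + Real.log T := Real.log_mul two_ne_zero hT0.ne'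
  have hl2 : 0 < Real.log 2 := Real.log_pos one_lt_two
  have hl21 : Real.log 2 ≤ 1 := by have := Real.log_two_lt_d9; linarith
  have hL2T : 1 ≤ Real.log (2 * T) := by linarith
  set Lg : ℝ := Real.log (2 * T) ^ (2 * n) with hLg
  have hLg1 : 1 ≤ Lg := one_le_pow₀ hL2T
  have hLg0 : 0 < Lg := by linarith
  by_cases hT : ρ⁻¹ ^ 2 ≤ T ^ (δ / 2)
  · -- the top group
    obtain ⟨j0, hj0, htop⟩ : ∃ j0, lam j0 ≠ 0 ∧ ∀ j, lam j = 0 ∨ al j = al j0 ∨ al j + δ ≤ al j0 := by
      set S : Finset (Fin n) := Finset.univ.filter fun i => lam i ≠ 0 with hS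
      have hne : S.Nonempty := by
        obtain ⟨i, hi⟩ := hlam3
        exact ⟨i, by simp [hS, hi]⟩
      obtain ⟨i₀, hi₀, hmax⟩ := S.exists_max_image al hne
      refine ⟨i₀, by simpa [hS] using hi₀, fun j => ?_⟩
      by_cases h : lam j = 0
      · exact Or.inl h
      · by_cases h' : al j = al i₀
        · exact Or.inr (Or.inl h')
        · refine Or.inr (Or.inr ?_)
          have h1 := hmax j (by simp [hS, h])
          have h2 := hδ2 j i₀ h'
          rw [abs_of_nonpos (by linarith)] at h2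
          linarith
    set a0 : ℝ := al j0 with ha0
    have hn : 0 < n := j0.pos
    set d : Fin n → ℝ := fun j => if al j = a0 then lam j * Real.exp (be j) else 0 with hd
    set l : ℝ := c1 * ρ * T ^ a0 * Lg⁻¹ with hl
    set L : ℝ := Kr * ρ⁻¹ * (2 * T) ^ a0 with hL
    have hTa0 : 0 < T ^ a0 := Real.rpow_pos_of_pos hT0 _
    have hl0 : 0 < l := by positivity
    have hL0 : 0 < L := by positivity
    set Kt : ℝ := A ^ (n + 3) * (2 * Real.pi * Real.exp Bb * K) with hKt
    have hKt0 : 0 < Kt := by positivity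
    have hterm : ∀ j, ∀ m < n + 3, ∀ x : ℝ, |lam j * (al j ^ (m + 1) * Vc (m + 1) (al j * x + be j))| ≤
        ρ⁻¹ * Kt * Real.exp (al j * x) := by
      intro j m hm x
      rw [abs_mul, abs_mul, abs_of_pos (pow_pos (hal j) _)]
      have h1 := Vc_bd hK hm (al j * x + be j)
      have h2 : al j ^ (m + 1) ≤ A ^ (n + 3) :=
        (pow_le_pow_left₀ (hal j).le (hAj j) _).trans (pow_le_pow_right₀ hA1 (by omega))
      have h3 : Real.exp (al j * x + be j) ≤ Real.exp Bb * Real.exp (al j * x) := by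
        rw [Real.exp_add, mul_comm]
        exact mul_le_mul_of_nonneg_right (Real.exp_le_exp.2 ((le_abs_self _).trans (hBj j))) (Real.exp_pos _).le
      calc |lam j| * (al j ^ (m + 1) * |Vc (m + 1) (al j * x + be j)|) ≤
            ρ⁻¹ * (A ^ (n + 3) * (2 * Real.pi * (Real.exp Bb * Real.exp (al j * x)) * K)) := by
            refine mul_le_mul (hlam2 j) (mul_le_mul h2 (h1.trans ?_) (abs_nonneg _) (by positivity)) (by
              have := hal j; positivity) hρi0.le
            gcongr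
        _ = ρ⁻¹ * Kt * Real.exp (al j * x) := by rw [hKt]; ring
    have hup : ∀ x ∈ Set.Icc (Real.log T) (Real.log (2 * T)), ∀ i < n, |Psi al be lam (i + 3) x| ≤ L := by
      intro x hx i hi
      have hx0 : 0 ≤ x := by linarith [hx.1]
      have h1 : ∀ j ∈ Finset.univ, |lam j * (al j ^ (i + 3) * Vc (i + 3) (al j * x + be j))| ≤ ρ⁻¹ * Kt * Real.exp (a0 * x) := by
        intro j _
        rcases htop j with h | h
        · rw [h, zero_mul, abs_zero]; positivity
        · refine (hterm j (i + 2) (by omega) x).trans (mul_le_mul_of_nonneg_left (Real.exp_le_exp.2 ?_) (by positivity))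
          refine mul_le_mul_of_nonneg_right ?_ hx0
          rcases h with h | h
          · exact h.le
          · linarith
      have h2 : |Psi al be lam (i + 3) x| ≤ n * (ρ⁻¹ * Kt * Real.exp (a0 * x)) := by
        refine (Finset.abs_sum_le_sum_abs _ _).trans ((Finset.sum_le_sum h1).trans (le_of_eq ?_))
        rw [Finset.sum_const, Finset.card_univ, Fintype.card_fin, nsmul_eq_mul]
      have h3 : Real.exp (a0 * x) ≤ (2 * T) ^ a0 := by
        rw [Real.rpow_def_of_pos (by positivity), mul_comm]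
        exact Real.exp_le_exp.2 (mul_le_mul_of_nonneg_right hx.2 (hal j0).le)
      refine h2.trans ?_
      have h4 : (0:ℝ) < (2 * T) ^ a0 := by positivity
      calc n * (ρ⁻¹ * Kt * Real.exp (a0 * x)) ≤ n * (ρ⁻¹ * Kt * (2 * T) ^ a0) := by gcongr
        _ = (n * Kt) * (ρ⁻¹ * (2 * T) ^ a0) := by ring
        _ ≤ Kr * (ρ⁻¹ * (2 * T) ^ a0) := by
            refine mul_le_mul_of_nonneg_right ?_ (by positivity)
            rw [hKr]; linarith
        _ = L := by rw [hL]; ring
    have hex : ∀ x ∈ Set.Icc (Real.log T) (Real.log (2 * T)), ∃ i < n, l ≤ |Psi al be lam (i + 2) x| := by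
      intro x hx
      by_contra hcon
      push Not at hcon
      have hx0 : 0 ≤ x := by linarith [hx.1]
      have hxX : X0 ≤ x := hlogX.trans hx.1
      have hTx : T ^ a0 ≤ Real.exp (a0 * x) := by
        rw [Real.rpow_def_of_pos hT0, mul_comm]
        exact Real.exp_le_exp.2 (mul_le_mul_of_nonneg_left hx.1 (hal j0).le)
      have hTδ : Real.exp (-δ * x) ≤ T ^ (-δ) := by
        rw [Real.rpow_def_of_pos hT0, mul_comm (Real.log T)]
        exact Real.exp_le_exp.2 (mul_le_mul_of_nonpos_left hx.1 (by linarith))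
      set δ' : ℝ := κ0⁻¹ ^ (n + 2) * (c1 * ρ * Lg⁻¹ + Kr * ρ⁻¹ * T ^ (-δ)) with hδ'
      have hTδ0 : 0 < T ^ (-δ) := Real.rpow_pos_of_pos hT0 _
      have hbd : ∀ i < n, |∑ j, d j * (Qm (i + 1)).eval (gw (a0 * x + be j))| ≤ δ' := by
        intro i hi
        have hrest : |Psi al be lam (i + 2) x - 2 * Real.pi * a0 ^ (i + 2) * Real.exp (a0 * x) *
            ∑ j, d j * (Qm (i + 1)).eval (gw (a0 * x + be j))| ≤ Kr * ρ⁻¹ * (Real.exp (a0 * x) * Real.exp (-δ * x)) := by
          unfold Psi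
          rw [Finset.mul_sum, ← Finset.sum_sub_distrib]
          have h1 : ∀ j ∈ Finset.univ, |lam j * (al j ^ (i + 2) * Vc (i + 2) (al j * x + be j)) -
              2 * Real.pi * a0 ^ (i + 2) * Real.exp (a0 * x) * (d j * (Qm (i + 1)).eval (gw (a0 * x + be j)))| ≤
              ρ⁻¹ * Kt * (Real.exp (a0 * x) * Real.exp (-δ * x)) := by
            intro j _
            by_cases hja : al j = a0
            · have e : lam j * (al j ^ (i + 2) * Vc (i + 2) (al j * x + be j)) -
                  2 * Real.pi * a0 ^ (i + 2) * Real.exp (a0 * x) * (d j * (Qm (i + 1)).eval (gw (a0 * x + be j))) = 0 := by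
                simp only [hd, if_pos hja, Vc]
                rw [hja, Real.exp_add]; ring
              rw [e, abs_zero]; positivity
            · simp only [hd, if_neg hja, zero_mul, mul_zero, sub_zero]
              rcases htop j with h | h | h
              · rw [h, zero_mul, abs_zero]; positivity
              · exact absurd h hja
              · refine (hterm j (i + 1) (by omega) x).trans (mul_le_mul_of_nonneg_left ?_ (by positivity))
                rw [← Real.exp_add]
                refine Real.exp_le_exp.2 ?_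
                have := mul_le_mul_of_nonneg_right h hx0
                linarith
          refine (Finset.abs_sum_le_sum_abs _ _).trans ((Finset.sum_le_sum h1).trans ?_)
          rw [Finset.sum_const, Finset.card_univ, Fintype.card_fin, nsmul_eq_mul]
          calc n * (ρ⁻¹ * Kt * (Real.exp (a0 * x) * Real.exp (-δ * x))) =
                (n * Kt) * (ρ⁻¹ * (Real.exp (a0 * x) * Real.exp (-δ * x))) := by ring
            _ ≤ Kr * (ρ⁻¹ * (Real.exp (a0 * x) * Real.exp (-δ * x))) := by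
                refine mul_le_mul_of_nonneg_right ?_ (by positivity)
                rw [hKr]; linarith
            _ = _ := by ring
        set Sd : ℝ := ∑ j, d j * (Qm (i + 1)).eval (gw (a0 * x + be j)) with hSd
        have hE : 0 < Real.exp (a0 * x) := Real.exp_pos _
        have ha0p : 0 < a0 ^ (i + 2) := pow_pos (hal j0) _
        have h2 : 2 * Real.pi * a0 ^ (i + 2) * Real.exp (a0 * x) * |Sd| ≤
            l + Kr * ρ⁻¹ * (Real.exp (a0 * x) * Real.exp (-δ * x)) := by
          have e1 : |2 * Real.pi * a0 ^ (i + 2) * Real.exp (a0 * x) * Sd| =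
              2 * Real.pi * a0 ^ (i + 2) * Real.exp (a0 * x) * |Sd| := by
            rw [abs_mul, abs_of_pos (by positivity)]
          rw [← e1]
          have h3 := hcon i hi
          have h4 := abs_sub_abs_le_abs_sub (2 * Real.pi * a0 ^ (i + 2) * Real.exp (a0 * x) * Sd) (Psi al be lam (i + 2) x)
          rw [abs_sub_comm] at h4
          linarith
        have h5 : l ≤ c1 * ρ * Lg⁻¹ * Real.exp (a0 * x) := by
          calc l = c1 * ρ * Lg⁻¹ * T ^ a0 := by rw [hl]; ring
            _ ≤ _ := mul_le_mul_of_nonneg_left hTx (by positivity)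
        have h6 : Kr * ρ⁻¹ * (Real.exp (a0 * x) * Real.exp (-δ * x)) ≤ Kr * ρ⁻¹ * T ^ (-δ) * Real.exp (a0 * x) := by
          calc _ = Kr * ρ⁻¹ * Real.exp (-δ * x) * Real.exp (a0 * x) := by ring
            _ ≤ _ := by gcongr
        have h7 : (2 * Real.pi * a0 ^ (i + 2) * |Sd|) * Real.exp (a0 * x) ≤
            (c1 * ρ * Lg⁻¹ + Kr * ρ⁻¹ * T ^ (-δ)) * Real.exp (a0 * x) := by
          rw [add_mul]
          calc _ = 2 * Real.pi * a0 ^ (i + 2) * Real.exp (a0 * x) * |Sd| := by ring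
            _ ≤ _ := by linarith
        have h8 := le_of_mul_le_mul_right h7 hE
        have h9 : κ0 ^ (n + 2) ≤ 2 * Real.pi * a0 ^ (i + 2) := by
          calc κ0 ^ (n + 2) ≤ κ0 ^ (i + 2) := pow_le_pow_of_le_one hκ0.le hκ01 (by omega)
            _ ≤ a0 ^ (i + 2) := pow_le_pow_left₀ hκ0.le (hκal j0) _
            _ ≤ 2 * Real.pi * a0 ^ (i + 2) := le_mul_of_one_le_left ha0p.le (by have := Real.pi_gt_three; linarith)
        have h10 : κ0 ^ (n + 2) * |Sd| ≤ c1 * ρ * Lg⁻¹ + Kr * ρ⁻¹ * T ^ (-δ) :=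
          (mul_le_mul_of_nonneg_right h9 (abs_nonneg _)).trans h8
        rw [hδ', inv_pow, le_inv_mul_iff₀ (by positivity)]
        exact h10
      have h11 := hX0 x hxX j0 d δ' (fun j hj => by simp only [hd]; rw [if_neg hj]) hbd
      have hδ'0 : 0 ≤ δ' := by positivity
      have h12 : x ^ (2 * n) ≤ Lg := pow_le_pow_left₀ hx0 hx.2 _
      have h13 : |d j0| ≤ Cg * δ' * Lg := h11.trans (mul_le_mul_of_nonneg_left h12 (by positivity))
      have h14 : ρ * Real.exp (-Bb) ≤ |d j0| := by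
        simp only [hd, ← ha0, if_true]
        rw [abs_mul, abs_of_pos (Real.exp_pos _)]
        refine mul_le_mul ((hlam1 j0).resolve_left hj0) (Real.exp_le_exp.2 ?_) (Real.exp_pos _).le (abs_nonneg _)
        have := hBj j0
        linarith [neg_abs_le (be j0)]
      have h15 : Cg * δ' * Lg = ρ * Real.exp (-Bb) / 4 + Cg * κ0⁻¹ ^ (n + 2) * Kr * ρ⁻¹ * T ^ (-δ) * Lg := by
        have p0 : κ0⁻¹ ^ (n + 2) * κ0 ^ (n + 2) = 1 := by rw [← mul_pow, inv_mul_cancel₀ hκ0.ne', one_pow]
        have p1 : Lg⁻¹ * Lg = 1 := inv_mul_cancel₀ hLg0.ne'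
        have p2 : Cg * c1 = Real.exp (-Bb) * κ0 ^ (n + 2) / 4 := by rw [hc1]; field_simp
        rw [hδ']
        calc Cg * (κ0⁻¹ ^ (n + 2) * (c1 * ρ * Lg⁻¹ + Kr * ρ⁻¹ * T ^ (-δ))) * Lg =
              (Cg * c1) * κ0⁻¹ ^ (n + 2) * ρ * (Lg⁻¹ * Lg) + Cg * κ0⁻¹ ^ (n + 2) * Kr * ρ⁻¹ * T ^ (-δ) * Lg := by ring
          _ = (κ0⁻¹ ^ (n + 2) * κ0 ^ (n + 2)) * (ρ * Real.exp (-Bb) / 4) +
              Cg * κ0⁻¹ ^ (n + 2) * Kr * ρ⁻¹ * T ^ (-δ) * Lg := by rw [p1, p2]; ring
          _ = _ := by rw [p0, one_mul]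
      have h16 : Cg * κ0⁻¹ ^ (n + 2) * Kr * ρ⁻¹ * T ^ (-δ) * Lg ≤ ρ * Real.exp (-Bb) / 4 := by
        have e1 : T ^ (-δ) = T ^ (-(δ / 2)) * T ^ (-(δ / 2)) := by rw [← Real.rpow_add hT0]; congr 1; ring
        have e2 : T ^ (δ / 2) * T ^ (-(δ / 2)) = 1 := by rw [← Real.rpow_add hT0]; simp
        have p1 : 0 < T ^ (-(δ / 2)) := Real.rpow_pos_of_pos hT0 _
        have e3 : Real.exp Bb * Real.exp (-Bb) = 1 := by rw [← Real.exp_add]; simp
        have p2 := Real.exp_pos (-Bb)
        have q1 : Cg * κ0⁻¹ ^ (n + 2) * Kr * Lg * T ^ (-(δ / 2)) ≤ Real.exp (-Bb) / 4 := by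
          have := mul_le_mul_of_nonneg_right t3 (mul_nonneg p1.le p2.le)
          have e4 : 4 * Cg * κ0⁻¹ ^ (n + 2) * Kr * Real.exp Bb * Lg * (T ^ (-(δ / 2)) * Real.exp (-Bb)) =
              4 * (Cg * κ0⁻¹ ^ (n + 2) * Kr * Lg * T ^ (-(δ / 2))) * (Real.exp Bb * Real.exp (-Bb)) := by ring
          have e5 : T ^ (δ / 2) * (T ^ (-(δ / 2)) * Real.exp (-Bb)) = (T ^ (δ / 2) * T ^ (-(δ / 2))) * Real.exp (-Bb) := by ring
          rw [e4, e5, e2, e3] at this
          linarith
        have q2 : ρ⁻¹ * T ^ (-(δ / 2)) ≤ ρ := by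
          have h17 := mul_le_mul_of_nonneg_right hT p1.le
          rw [e2] at h17
          have e6 : ρ⁻¹ * T ^ (-(δ / 2)) = ρ * (ρ⁻¹ ^ 2 * T ^ (-(δ / 2))) := by field_simp
          rw [e6]
          exact mul_le_of_le_one_right hρ.le h17
        calc Cg * κ0⁻¹ ^ (n + 2) * Kr * ρ⁻¹ * T ^ (-δ) * Lg =
              (Cg * κ0⁻¹ ^ (n + 2) * Kr * Lg * T ^ (-(δ / 2))) * (ρ⁻¹ * T ^ (-(δ / 2))) := by rw [e1]; ring
          _ ≤ (Real.exp (-Bb) / 4) * ρ := mul_le_mul q1 q2 (by positivity) (by positivity)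
          _ = _ := by ring
      have h18 : 0 < ρ * Real.exp (-Bb) := mul_pos hρ (Real.exp_pos _)
      linarith
    -- the size of `l`
    have hlT : T ^ (κ0 / 2) ≤ l := by
      have q1 : T ^ (-(κ0 / 4)) ≤ c1 * Lg⁻¹ := by
        rw [Real.rpow_neg hT0.le, inv_le_comm₀ (by positivity) (by positivity), mul_inv, inv_inv]
        exact t4
      have q2 : T ^ (-(κ0 / 4)) ≤ ρ := by
        have h1 : ρ⁻¹ ^ 2 ≤ (T ^ (κ0 / 4)) ^ 2 := by
          rw [← Real.rpow_natCast (T ^ (κ0 / 4)), ← Real.rpow_mul hT0.le]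
          refine hT.trans (Real.rpow_le_rpow_of_exponent_le hT1 ?_)
          push_cast; linarith
        have h2 := (pow_le_pow_iff_left₀ hρi0.le (by positivity) two_ne_zero).1 h1
        rw [Real.rpow_neg hT0.le, inv_le_comm₀ (by positivity) hρ]
        exact h2
      have q3 : T ^ κ0 ≤ T ^ a0 := Real.rpow_le_rpow_of_exponent_le hT1 (hκal j0)
      have p1 : 0 < T ^ (-(κ0 / 4)) := Real.rpow_pos_of_pos hT0 _
      calc T ^ (κ0 / 2) = T ^ (-(κ0 / 4)) * T ^ (-(κ0 / 4)) * T ^ κ0 := by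
            rw [← Real.rpow_add hT0, ← Real.rpow_add hT0]; congr 1; ring
        _ ≤ (c1 * Lg⁻¹) * ρ * T ^ a0 := by gcongr
        _ = l := by rw [hl]; ring
    have hl1 : 1 ≤ l := (Real.one_le_rpow hT1 (by positivity)).trans hlT
    set M : ℝ := Cc * (L / l + 1) * l ^ (-(1 / ((n : ℝ) + 1))) with hM
    have hpart : ∀ y ∈ Set.Icc (Real.log T) (Real.log (2 * T)),
        ‖∫ x in (Real.log T)..y, Complex.exp (Complex.I * (Psi al be lam 0 x : ℂ))‖ ≤ M := by
      intro y hy
      have h1 := hcell (Psi al be lam) (Real.log T) y l L hy.1 hl1 hL0 (fun j x _ => Psi_deriv al be lam j x)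
        (fun x hx => hex x ⟨hx.1, hx.2.trans hy.2⟩) (fun x hx => hup x ⟨hx.1, hx.2.trans hy.2⟩)
      refine h1.trans ?_
      refine mul_le_mul_of_nonneg_right (mul_le_mul_of_nonneg_left (add_le_add_left ?_ 1) hCc.le) (Real.rpow_nonneg hl0.le _)
      have h2 : y - Real.log T ≤ 1 := by linarith [hy.2]
      refine div_le_div_of_nonneg_right ?_ hl0.le
      exact mul_le_of_le_one_left hL0.le h2
    have hPc : Continuous (Psi al be lam 0) := continuous_iff_continuousAt.2 fun x => (Psi_deriv al be lam 0 x).continuousAt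
    have hFc : Continuous fun x => Complex.exp (Complex.I * (Psi al be lam 0 x : ℂ)) := by fun_prop
    have hamp := ampl hFc (a := Real.log T) (b := Real.log (2 * T)) (by linarith) hpart
    have hchange : ∫ t in T..2 * T, Complex.exp (Complex.I * ((∑ i, lam i * phi al be i t : ℝ) : ℂ)) =
        ∫ x in (Real.log T)..(Real.log (2 * T)), Real.exp x • Complex.exp (Complex.I * (Psi al be lam 0 x : ℂ)) := by
      have h1 := intervalIntegral.integral_comp_smul_deriv' (a := Real.log T) (b := Real.log (2 * T)) (f := Real.exp)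
        (f' := Real.exp) (g := fun t : ℝ => Complex.exp (Complex.I * ((∑ i, lam i * phi al be i t : ℝ) : ℂ)))
        (fun x _ => Real.hasDerivAt_exp x) Real.continuous_exp.continuousOn (by
          refine ContinuousOn.cexp (continuousOn_const.mul (Complex.continuous_ofReal.comp_continuousOn ?_))
          refine continuousOn_finsetSum _ fun i _ => continuousOn_const.mul ?_
          unfold phi
          refine continuousOn_const.mul (Real.continuous_exp.comp_continuousOn (w_cont.comp_continuousOn ?_))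
          refine (continuousOn_const.mul (Real.continuousOn_log.mono ?_)).add continuousOn_const
          rintro t ⟨x, _, rfl⟩
          exact (Real.exp_pos x).ne')
      rw [Real.exp_log hT0, Real.exp_log (by positivity)] at h1
      rw [← h1]
      refine intervalIntegral.integral_congr fun x _ => ?_
      simp only [Function.comp, phi, Psi, Vc, Real.log_exp, pow_zero, one_mul]
    rw [hchange]
    refine hamp.trans ?_
    rw [Real.exp_log (by positivity)]
    have hLl : L / l ≤ Kr * 2 ^ A / c1 * (ρ⁻¹ ^ 2 * Lg) := by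
      have h2A : (2 : ℝ) ^ a0 ≤ 2 ^ A := Real.rpow_le_rpow_of_exponent_le one_le_two (hAj j0)
      have e : L / l = Kr * 2 ^ a0 / c1 * (ρ⁻¹ ^ 2 * Lg) := by
        rw [hL, hl, Real.mul_rpow two_pos.le hT0.le]
        field_simp
      rw [e]
      gcongr
    have hlp : l ^ (-(1 / ((n : ℝ) + 1))) ≤ T ^ (-(2 * κ)) := by
      calc l ^ (-(1 / ((n : ℝ) + 1))) ≤ (T ^ (κ0 / 2)) ^ (-(1 / ((n : ℝ) + 1))) :=
            Real.rpow_le_rpow_of_nonpos (by positivity) hlT (neg_nonpos.2 (by positivity))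
        _ = T ^ (-(2 * κ)) := by
            rw [← Real.rpow_mul hT0.le]
            congr 1
            rw [hκd]
            have : (n : ℝ) + 1 ≠ 0 := by positivity
            field_simp
            ring
    have hL1 : 1 ≤ ρ⁻¹ ^ 2 * Lg := one_le_mul_of_one_le_of_one_le (one_le_pow₀ hρi) hLg1
    have hMle : M ≤ Cc * ((Kr * 2 ^ A / c1 + 1) * (ρ⁻¹ ^ 2 * Lg)) * T ^ (-(2 * κ)) := by
      rw [hM]
      refine mul_le_mul (mul_le_mul_of_nonneg_left ?_ hCc.le) hlp (Real.rpow_nonneg hl0.le _) (by positivity)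
      rw [add_mul, one_mul]
      linarith
    rw [one_mul] at t5
    have hT2 : T * T ^ (-(2 * κ)) * T ^ κ = T ^ (1 - κ) := by
      nth_rewrite 1 [← Real.rpow_one T]
      rw [← Real.rpow_add hT0, ← Real.rpow_add hT0]; congr 1; ring
    calc 2 * (2 * T) * M ≤ 2 * (2 * T) * (Cc * ((Kr * 2 ^ A / c1 + 1) * (ρ⁻¹ ^ 2 * Lg)) * T ^ (-(2 * κ))) := by gcongr
      _ = 4 * Cc * (Kr * 2 ^ A / c1 + 1) * ρ⁻¹ ^ 2 * (T * T ^ (-(2 * κ)) * Lg) := by ring
      _ ≤ 4 * Cc * (Kr * 2 ^ A / c1 + 1) * ρ⁻¹ ^ 2 * (T * T ^ (-(2 * κ)) * T ^ κ) := by gcongr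
      _ = 4 * Cc * (Kr * 2 ^ A / c1 + 1) * ρ⁻¹ ^ 2 * T ^ (1 - κ) := by rw [hT2]
      _ ≤ (4 * Cc * (Kr * 2 ^ A / c1 + 1) + 1) * ρ⁻¹ ^ (N + 2) * T ^ (1 - κ) := by
          refine mul_le_mul_of_nonneg_right (mul_le_mul (by linarith) (pow_le_pow_right₀ hρi (by omega)) (by positivity)
            (by positivity)) hTp.le
  · push Not at hT
    have h4 : ‖∫ t in T..2 * T, Complex.exp (Complex.I * ((∑ i, lam i * phi al be i t : ℝ) : ℂ))‖ ≤ 1 * |2 * T - T| :=
      intervalIntegral.norm_integral_le_of_norm_le_const fun t _ => by rw [Complex.norm_exp_I_mul_ofReal]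
    rw [one_mul, show 2 * T - T = T by ring, abs_of_pos hT0] at h4
    refine h4.trans ?_
    have h5 : T = T ^ κ * T ^ (1 - κ) := by rw [← Real.rpow_add hT0]; simp
    have h6 : T ^ κ ≤ ρ⁻¹ ^ (N + 2) := by
      calc T ^ κ = (T ^ (δ / 2)) ^ (2 * κ / δ) := by rw [← Real.rpow_mul hT0.le]; congr 1; field_simp
        _ ≤ (ρ⁻¹ ^ 2) ^ (2 * κ / δ) := Real.rpow_le_rpow (by positivity) hT.le (by positivity)
        _ = ρ⁻¹ ^ (4 * κ / δ) := by
            rw [← Real.rpow_natCast, ← Real.rpow_mul hρi0.le]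
            congr 1
            push_cast; ring
        _ ≤ ρ⁻¹ ^ ((N + 2 : ℕ) : ℝ) := by
            refine Real.rpow_le_rpow_of_exponent_le hρi ?_
            push_cast
            linarith
        _ = _ := by rw [Real.rpow_natCast]
    calc T = T ^ κ * T ^ (1 - κ) := h5
      _ ≤ ρ⁻¹ ^ (N + 2) * T ^ (1 - κ) := mul_le_mul_of_nonneg_right h6 hTp.le
      _ ≤ _ := by
          refine mul_le_mul_of_nonneg_right ?_ hTp.le
          refine le_mul_of_one_le_left (by positivity) ?_
          have : 0 ≤ 4 * Cc * (Kr * 2 ^ A / c1 + 1) := by positivity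
          linarith

end

end Pool.Agent.Q173.PI
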