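import Pool.Agent.Q173.PI.Trf

set_option autoImplicit false

/-! # Discretisation -/

namespace Pool.Agent.Q173.PI

open Filter Topology MeasureTheory Set Complex
open Pool.Agent.Q173.JD (zT muT muT_int muT_prob)

noncomputable section

/-- the uniform distribution on `(N, 2N]` and the integers in `[N, 2N)` -/
lemma disc (N : ℕ) (hN : 1 ≤ N) (p : ℕ → Prop) : (muT N).real {u : ℝ | p ⌊u⌋₊} =
    ({n : ℕ | N ≤ n ∧ n < 2 * N ∧ p n}.ncard : ℝ) / N := by
  classical
  have hN0 : (0:ℝ) < N := by exact_mod_cast hN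
  have hmeas : MeasurableSet {u : ℝ | p ⌊u⌋₊} := by
    have h1 : Measurable fun u : ℝ => ⌊u⌋₊ := Nat.measurable_floor
    exact h1 (MeasurableSet.of_discrete (s := {n : ℕ | p n}))
  have hset : {n : ℕ | N ≤ n ∧ n < 2 * N ∧ p n} = ((Finset.Ico N (2 * N)).filter p : Finset ℕ) := by
    ext n
    simp only [Set.mem_ofPred_eq, Finset.coe_filter, Finset.mem_Ico, and_assoc]
  rw [hset, Set.ncard_coe_finset]
  unfold muT
  rw [measureReal_ennreal_smul_apply, Measure.real, Measure.restrict_apply hmeas, ENNReal.toReal_inv,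
    ENNReal.toReal_ofReal hN0.le, div_eq_inv_mul]
  congr 1
  have e1 : volume ({u : ℝ | p ⌊u⌋₊} ∩ Ioc (N : ℝ) (2 * N)) = volume ({u : ℝ | p ⌊u⌋₊} ∩ Ico (N : ℝ) (2 * N)) := by
    refine measure_congr ?_
    exact (ae_eq_refl _).inter Ico_ae_eq_Ioc.symm
  have e2 : {u : ℝ | p ⌊u⌋₊} ∩ Ico (N : ℝ) (2 * N) = ⋃ n ∈ (Finset.Ico N (2 * N)).filter p, Ico (n : ℝ) (n + 1) := by
    ext u
    simp only [Set.mem_inter_iff, Set.mem_ofPred_eq, Set.mem_Ico, Finset.mem_filter, Finset.mem_Ico, Set.mem_iUnion,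
      exists_prop]
    constructor
    · rintro ⟨h1, h2, h3⟩
      have hu : 0 ≤ u := by linarith
      refine ⟨⌊u⌋₊, ⟨⟨Nat.le_floor h2, ?_⟩, h1⟩, Nat.floor_le hu, Nat.lt_floor_add_one u⟩
      rw [Nat.floor_lt hu]
      push_cast
      exact h3
    · rintro ⟨n, ⟨⟨h1, h2⟩, h3⟩, h4, h5⟩
      have hn0 : (0:ℝ) ≤ n := Nat.cast_nonneg n
      have hf : ⌊u⌋₊ = n := by
        rw [Nat.floor_eq_iff (by linarith)]
        exact ⟨h4, h5⟩
      have h6 : (N : ℝ) ≤ n := by exact_mod_cast h1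
      have h7 : (n : ℝ) + 1 ≤ 2 * N := by exact_mod_cast h2
      rw [hf]
      exact ⟨h3, by linarith, by linarith⟩
  rw [e1, e2, measure_biUnion_finset]
  · simp only [Real.volume_Ico, add_sub_cancel_left, ENNReal.ofReal_one, Finset.sum_const, nsmul_eq_mul, mul_one,
      ENNReal.toReal_natCast]
  · intro i _ j _ hij
    rw [Function.onFun, Set.disjoint_left]
    rintro u ⟨h1, h2⟩ ⟨h3, h4⟩
    have h5 : (i : ℝ) < j + 1 := by linarith
    have h6 : (j : ℝ) < i + 1 := by linarith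
    have h7 : i < j + 1 := by exact_mod_cast h5
    have h8 : j < i + 1 := by exact_mod_cast h6
    exact hij (by omega)
  · intro i _
    exact measurableSet_Ico

end

end Pool.Agent.Q173.PI
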