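import Pool.Agent.Q173.PI.Bad

set_option autoImplicit false

/-! # Transfer of the joint law -/

namespace Pool.Agent.Q173.PI

open Filter Topology MeasureTheory Set Complex
open Pool.Agent.Q173.JD (zT muT muT_int muT_prob)

noncomputable section

lemma gK : Tendsto (fun K : ℕ => (ProbabilityTheory.gaussianReal 0 1).real (Set.Ioo (-(K : ℝ)) K)) atTop (𝓝 1) := by
  have hm : Monotone fun K : ℕ => Set.Ioo (-(K : ℝ)) K := by
    intro a b hab
    have : (a : ℝ) ≤ b := by exact_mod_cast hab
    exact Set.Ioo_subset_Ioo (by linarith) this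
  have h := tendsto_measure_iUnion_atTop (μ := ProbabilityTheory.gaussianReal 0 1) hm
  have hU : (⋃ K : ℕ, Set.Ioo (-(K : ℝ)) K) = Set.univ := by
    rw [Set.eq_univ_iff_forall]
    intro x
    obtain ⟨n, hn⟩ := exists_nat_gt |x|
    rw [Set.mem_iUnion]
    exact ⟨n, (abs_lt.1 hn).1, (abs_lt.1 hn).2⟩
  rw [hU, measure_univ] at h
  have h2 := (ENNReal.tendsto_toReal ENNReal.one_ne_top).comp h
  rw [ENNReal.toReal_one] at h2
  exact h2

variable {k : ℕ} {X Y : ℝ → ℝ → Fin k → ℝ}

lemma box_meas (hX : ∀ T j, Measurable fun t => X T t j) (T : ℝ) (a b : Fin k → ℝ) :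
    MeasurableSet {t | ∀ j, a j < X T t j ∧ X T t j < b j} := by
  have e : {t | ∀ j, a j < X T t j ∧ X T t j < b j} = ⋂ j, {t | a j < X T t j ∧ X T t j < b j} := by
    ext t; simp
  rw [e]
  exact MeasurableSet.iInter fun j => (measurableSet_lt measurable_const (hX T j)).inter
    (measurableSet_lt (hX T j) measurable_const)

lemma tight (hX : ∀ T j, Measurable fun t => X T t j)
    (hchar : ∀ c : Fin k → ℝ, Tendsto (fun T => ∫ t, cexp (I * ((∑ j, c j * X T t j : ℝ) : ℂ)) ∂(muT T)) atTop
      (𝓝 ((Real.exp (-(1 / 2 * ∑ j, c j ^ 2)) : ℝ) : ℂ))) {ε : ℝ} (hε : 0 < ε) :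
    ∃ K : ℝ, ∀ᶠ T in atTop, (muT T).real {t | ∀ j, -K < X T t j ∧ X T t j < K}ᶜ ≤ ε := by
  have h1 : Tendsto (fun K : ℕ => ∏ _j : Fin k, (ProbabilityTheory.gaussianReal 0 1).real (Set.Ioo (-(K : ℝ)) K)) atTop
      (𝓝 1) := by
    have := tendsto_finsetProd (Finset.univ : Finset (Fin k)) fun (_ : Fin k) _ => gK
    simpa using this
  obtain ⟨K, hK⟩ := (h1.eventually_const_lt (show 1 - ε / 2 < 1 by linarith)).exists
  refine ⟨K, ?_⟩
  have h2 := Pool.Agent.Q173.JD.box_lim hX hchar (fun _ => -(K : ℝ)) (fun _ => (K : ℝ))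
  filter_upwards [h2.eventually_const_lt (show 1 - ε < _ by linarith), eventually_gt_atTop 0] with T hT hT0
  have := muT_prob hT0
  rw [probReal_compl_eq_one_sub (box_meas hX T _ _)]
  linarith

/-- closeness in probability -/
lemma pclose (hX : ∀ T j, Measurable fun t => X T t j)
    (hchar : ∀ c : Fin k → ℝ, Tendsto (fun T => ∫ t, cexp (I * ((∑ j, c j * X T t j : ℝ) : ℂ)) ∂(muT T)) atTop
      (𝓝 ((Real.exp (-(1 / 2 * ∑ j, c j ^ 2)) : ℝ) : ℂ)))
    (hbad : ∀ j, ∀ y δ : ℝ, 0 < δ → Tendsto (fun T : ℝ => (muT T).real {t | (X T t j ≤ y - δ ∧ y < Y T t j) ∨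
      (y + δ ≤ X T t j ∧ Y T t j ≤ y)}) atTop (𝓝 0)) (j : Fin k) {δ : ℝ} (hδ : 0 < δ) :
    Tendsto (fun T : ℝ => (muT T).real {t | 3 * δ < |Y T t j - X T t j|}) atTop (𝓝 0) := by
  rw [Metric.tendsto_nhds]
  intro ε hε
  obtain ⟨K, hK⟩ := tight hX hchar (show 0 < ε / 2 by linarith)
  set M : ℤ := ⌈|K| / δ⌉ + 2 with hM
  have hsum : Tendsto (fun T : ℝ => ∑ i ∈ Finset.Icc (-M) M, (muT T).real {t | (X T t j ≤ i * δ - δ ∧ i * δ < Y T t j) ∨
      (i * δ + δ ≤ X T t j ∧ Y T t j ≤ i * δ)}) atTop (𝓝 0) := by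
    have := tendsto_finsetSum (Finset.Icc (-M) M) fun i (_ : i ∈ Finset.Icc (-M) M) => hbad j ((i : ℝ) * δ) δ hδ
    simpa using this
  filter_upwards [hK, hsum.eventually_lt_const (show 0 < ε / 2 by linarith), eventually_gt_atTop 0] with T t1 t2 hT0
  have := muT_prob hT0
  rw [dist_zero_right, Real.norm_of_nonneg measureReal_nonneg]
  have hsub : {t | 3 * δ < |Y T t j - X T t j|} ⊆ {t | ∀ j, -K < X T t j ∧ X T t j < K}ᶜ ∪
      ⋃ i ∈ Finset.Icc (-M) M, {t | (X T t j ≤ i * δ - δ ∧ i * δ < Y T t j) ∨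
      (i * δ + δ ≤ X T t j ∧ Y T t j ≤ i * δ)} := by
    intro t ht
    by_cases hb : ∀ j, -K < X T t j ∧ X T t j < K
    · right
      obtain ⟨b1, b2⟩ := hb j
      rw [Set.mem_ofPred_eq] at ht
      have hKM : |K| ≤ (M - 2) * δ := by
        have := Int.le_ceil (|K| / δ)
        rw [div_le_iff₀ hδ] at this
        rw [hM]
        push_cast
        linarith
      have hK1 := le_abs_self K
      have hK2 := neg_abs_le K
      set x := X T t j with hx
      set z := Y T t j with hz
      rw [Set.mem_iUnion₂]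
      rcases lt_abs.1 ht with h | h
      · -- z > x + 3 δ
        set i : ℤ := ⌈x / δ⌉ + 1 with hi
        have i1 := Int.le_ceil (x / δ)
        have i2 := Int.ceil_lt_add_one (x / δ)
        rw [div_le_iff₀ hδ] at i1
        have i3 : (⌈x / δ⌉ : ℝ) * δ < x + δ := by
          have h5 := mul_lt_mul_of_pos_right i2 hδ
          have h6 : (x / δ + 1) * δ = x + δ := by field_simp
          linarith
        have e : (i : ℝ) = ⌈x / δ⌉ + 1 := by rw [hi]; push_cast; ring
        refine ⟨i, ?_, ?_⟩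
        · rw [Finset.mem_Icc]
          constructor
          · have : (-M : ℝ) * δ ≤ i * δ := by rw [e]; nlinarith
            have := le_of_mul_le_mul_right this hδ
            exact_mod_cast this
          · have : (i : ℝ) * δ ≤ M * δ := by rw [e]; nlinarith
            have := le_of_mul_le_mul_right this hδ
            exact_mod_cast this
        · left
          rw [e]
          constructor <;> nlinarith
      · set i : ℤ := ⌊x / δ⌋ - 1 with hi
        have i1 := Int.floor_le (x / δ)
        have i2 := Int.lt_floor_add_one (x / δ)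
        rw [le_div_iff₀ hδ] at i1
        rw [div_lt_iff₀ hδ] at i2
        have e : (i : ℝ) = ⌊x / δ⌋ - 1 := by rw [hi]; push_cast; ring
        refine ⟨i, ?_, ?_⟩
        · rw [Finset.mem_Icc]
          constructor
          · have : (-M : ℝ) * δ ≤ i * δ := by rw [e]; nlinarith
            have := le_of_mul_le_mul_right this hδ
            exact_mod_cast this
          · have : (i : ℝ) * δ ≤ M * δ := by rw [e]; nlinarith
            have := le_of_mul_le_mul_right this hδ
            exact_mod_cast this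
        · right
          rw [e]
          constructor <;> nlinarith
    · left; exact hb
  calc (muT T).real {t | 3 * δ < |Y T t j - X T t j|} ≤ _ := measureReal_mono hsub
    _ ≤ _ := measureReal_union_le _ _
    _ ≤ ε / 2 + _ := add_le_add t1 (measureReal_biUnion_finset_le _ _)
    _ < ε := by linarith

/-- **the transfer of the characteristic functions** -/
theorem close (hX : ∀ T j, Measurable fun t => X T t j) (hY : ∀ T j, Measurable fun t => Y T t j)
    (hchar : ∀ c : Fin k → ℝ, Tendsto (fun T => ∫ t, cexp (I * ((∑ j, c j * X T t j : ℝ) : ℂ)) ∂(muT T)) atTop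
      (𝓝 ((Real.exp (-(1 / 2 * ∑ j, c j ^ 2)) : ℝ) : ℂ)))
    (hbad : ∀ j, ∀ y δ : ℝ, 0 < δ → Tendsto (fun T : ℝ => (muT T).real {t | (X T t j ≤ y - δ ∧ y < Y T t j) ∨
      (y + δ ≤ X T t j ∧ Y T t j ≤ y)}) atTop (𝓝 0)) (c : Fin k → ℝ) :
    Tendsto (fun T => ∫ t, cexp (I * ((∑ j, c j * Y T t j : ℝ) : ℂ)) ∂(muT T)) atTop
      (𝓝 ((Real.exp (-(1 / 2 * ∑ j, c j ^ 2)) : ℝ) : ℂ)) := by
  have key : Tendsto (fun T => (∫ t, cexp (I * ((∑ j, c j * Y T t j : ℝ) : ℂ)) ∂(muT T)) -
      ∫ t, cexp (I * ((∑ j, c j * X T t j : ℝ) : ℂ)) ∂(muT T)) atTop (𝓝 0) := by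
    rw [Metric.tendsto_nhds]
    intro ε hε
    set A : ℝ := ∑ j, |c j| with hA
    have hA0 : 0 ≤ A := Finset.sum_nonneg fun _ _ => abs_nonneg _
    set δ : ℝ := ε / (8 * (A + 1)) with hδ
    have hδ0 : 0 < δ := by positivity
    have hs : Tendsto (fun T : ℝ => ∑ j, (muT T).real {t | 3 * δ < |Y T t j - X T t j|}) atTop (𝓝 0) := by
      have := tendsto_finsetSum (Finset.univ : Finset (Fin k)) fun j (_ : j ∈ Finset.univ) => pclose hX hchar hbad j hδ0
      simpa using this
    filter_upwards [hs.eventually_lt_const (show 0 < ε / 8 by linarith), eventually_gt_atTop 0] with T t1 hT0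
    have := muT_prob hT0
    set E : Fin k → Set ℝ := fun j => {t | 3 * δ < |Y T t j - X T t j|} with hE
    have hEm : ∀ j, MeasurableSet (E j) := fun j =>
      measurableSet_lt measurable_const (continuous_abs.measurable.comp ((hY T j).sub (hX T j)))
    have hint : ∀ (Z : ℝ → ℝ → Fin k → ℝ), (∀ T j, Measurable fun t => Z T t j) →
        Integrable (fun t => cexp (I * ((∑ j, c j * Z T t j : ℝ) : ℂ))) (muT T) := by
      intro Z hZ
      refine Integrable.of_bound (C := 1) ?_ (Eventually.of_forall fun t => ?_)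
      · refine (Complex.measurable_exp.comp ((Complex.measurable_ofReal.comp ?_).const_mul I)).aestronglyMeasurable
        exact Finset.measurable_sum _ fun j _ => (hZ T j).const_mul _
      · rw [mul_comm, Complex.norm_exp_ofReal_mul_I]
    have hind : ∀ j, Integrable ((E j).indicator fun _ => (1:ℝ)) (muT T) := fun j =>
      (integrable_const (1:ℝ)).indicator (hEm j)
    have hR : Integrable (fun t => 3 * δ * A + 2 * ∑ j, (E j).indicator (fun _ => (1:ℝ)) t) (muT T) :=
      (integrable_const _).add ((integrable_finsetSum _ fun j _ => hind j).const_mul 2)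
    have hpt : ∀ t, ‖cexp (I * ((∑ j, c j * Y T t j : ℝ) : ℂ)) - cexp (I * ((∑ j, c j * X T t j : ℝ) : ℂ))‖ ≤
        3 * δ * A + 2 * ∑ j, (E j).indicator (fun _ => (1:ℝ)) t := by
      intro t
      have hi0 : ∀ j, 0 ≤ (E j).indicator (fun _ => (1:ℝ)) t := fun j => Set.indicator_nonneg (fun _ _ => zero_le_one) _
      by_cases h : ∃ j, t ∈ E j
      · obtain ⟨j, hj⟩ := h
        have h1 : (1:ℝ) ≤ ∑ j, (E j).indicator (fun _ => (1:ℝ)) t := by
          calc (1:ℝ) = (E j).indicator (fun _ => (1:ℝ)) t := by rw [Set.indicator_of_mem hj]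
            _ ≤ _ := Finset.single_le_sum (f := fun j => (E j).indicator (fun _ => (1:ℝ)) t) (fun i _ => hi0 i) (Finset.mem_univ j)
        have h2 : ∀ x : ℝ, ‖cexp (I * (x : ℂ))‖ = 1 := fun x => by rw [mul_comm, Complex.norm_exp_ofReal_mul_I]
        have h3 := norm_sub_le (cexp (I * ((∑ j, c j * Y T t j : ℝ) : ℂ))) (cexp (I * ((∑ j, c j * X T t j : ℝ) : ℂ)))
        rw [h2, h2] at h3
        have : 0 ≤ 3 * δ * A := by positivity
        linarith
      · push Not at h
        refine (Pool.Agent.Q173.JD.exp_lip _ _).trans ?_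
        have h1 : |(∑ j, c j * Y T t j) - ∑ j, c j * X T t j| ≤ 3 * δ * A := by
          rw [← Finset.sum_sub_distrib, hA, Finset.mul_sum]
          refine (Finset.abs_sum_le_sum_abs _ _).trans (Finset.sum_le_sum fun j _ => ?_)
          have h2 : |Y T t j - X T t j| ≤ 3 * δ := by
            have := h j
            rw [hE] at this
            simpa using this
          rw [← mul_sub, abs_mul, mul_comm (3 * δ)]
          exact mul_le_mul_of_nonneg_left h2 (abs_nonneg _)
        have h2 : 0 ≤ ∑ j, (E j).indicator (fun _ => (1:ℝ)) t := Finset.sum_nonneg fun j _ => hi0 j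
        linarith
    rw [dist_zero_right, ← integral_sub (hint Y hY) (hint X hX)]
    refine lt_of_le_of_lt ((norm_integral_le_integral_norm _).trans (integral_mono_of_nonneg
      (Eventually.of_forall fun _ => norm_nonneg _) hR (Eventually.of_forall hpt))) ?_
    rw [integral_add (integrable_const _) ((integrable_finsetSum _ fun j _ => hind j).const_mul 2), integral_const,
      probReal_univ, one_smul, integral_const_mul, integral_finsetSum _ fun j _ => hind j]
    have e : ∀ j, ∫ t, (E j).indicator (fun _ => (1:ℝ)) t ∂(muT T) = (muT T).real (E j) := fun j => by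
      rw [integral_indicator (hEm j)]
      simp
    simp_rw [e]
    have h9 : 3 * δ * A ≤ 3 * ε / 8 := by
      rw [hδ]
      have : A / (A + 1) ≤ 1 := by rw [div_le_one (by linarith)]; linarith
      calc 3 * (ε / (8 * (A + 1))) * A = 3 * ε / 8 * (A / (A + 1)) := by field_simp
        _ ≤ 3 * ε / 8 * 1 := mul_le_mul_of_nonneg_left this (by positivity)
        _ = _ := by ring
    linarith
  have h2 := key.add (hchar c)
  rw [zero_add] at h2
  refine h2.congr fun T => ?_
  ring

/-- **the characteristic functions for the ordinates** -/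
theorem y_char (al be : Fin k → ℝ) (hal : ∀ j, 0 < al j) (hal1 : ∀ j, al j ≤ 1)
    (hinj : ∀ i j, al i = al j → be i = be j → i = j) (c : Fin k → ℝ) :
    Tendsto (fun T => ∫ t, cexp (I * ((∑ j, c j * Yf (al j) (be j) T t : ℝ) : ℂ)) ∂(muT T)) atTop
      (𝓝 ((Real.exp (-(1 / 2 * ∑ j, c j ^ 2)) : ℝ) : ℂ)) := by
  refine close (X := fun T t j => Zf (al j) (be j) T t) (Y := fun T t j => Yf (al j) (be j) T t)
    (fun T j => Zf_meas _ _ T) (fun T j => Yf_meas _ _ T) (fun c => ?_)
    (fun j y δ hδ => bad (be j) (hal j) (hal1 j) y δ hδ) c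
  have h := ph_char al be hal hinj (fun j => -c j)
  simp only [neg_sq] at h
  refine h.congr fun T => ?_
  refine integral_congr_ae (Eventually.of_forall fun t => ?_)
  show cexp _ = cexp _
  congr 3
  refine Finset.sum_congr rfl fun j _ => ?_
  unfold Zf
  ring

end

end Pool.Agent.Q173.PI
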