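import Pool.Agent.Q173.PI.Low

set_option autoImplicit false

/-! # The inverse function of the main term -/

namespace Pool.Agent.Q173.PI

open Finset Polynomial Filter Topology

noncomputable section

lemma w_ex (y : ℝ) : ∃ v : ℝ, 1 < v ∧ Real.exp v * (v - 1) = Real.exp y := by
  have hy := Real.exp_pos y
  have hc : ContinuousOn (fun v : ℝ => Real.exp v * (v - 1)) (Set.Icc 1 (Real.exp y + 2)) := by fun_prop
  have h1 : Real.exp y ∈ Set.Icc ((fun v : ℝ => Real.exp v * (v - 1)) 1) ((fun v : ℝ => Real.exp v * (v - 1)) (Real.exp y + 2)) := by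
    constructor
    · simp [hy.le]
    · show Real.exp y ≤ Real.exp (Real.exp y + 2) * (Real.exp y + 2 - 1)
      have h2 : 1 ≤ Real.exp (Real.exp y + 2) := Real.one_le_exp (by linarith)
      nlinarith
  obtain ⟨v, hv, hv2⟩ := intermediate_value_Icc (by linarith) hc h1
  refine ⟨v, ?_, hv2⟩
  rcases lt_or_eq_of_le hv.1 with h | h
  · exact h
  · exfalso
    rw [← h] at hv2
    simp at hv2
    exact absurd hv2 hy.ne

/-- `w y`: the solution `v > 1` of `v + log (v - 1) = y` -/
def w (y : ℝ) : ℝ := (w_ex y).choose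

lemma w_gt (y : ℝ) : 1 < w y := (w_ex y).choose_spec.1

lemma w_eq (y : ℝ) : Real.exp (w y) * (w y - 1) = Real.exp y := (w_ex y).choose_spec.2

lemma w_log (y : ℝ) : w y + Real.log (w y - 1) = y := by
  have h1 := w_gt y
  have h2 := congrArg Real.log (w_eq y)
  rwa [Real.log_mul (Real.exp_pos _).ne' (by linarith), Real.log_exp, Real.log_exp] at h2

lemma w_mono {y y' : ℝ} (h : y ≤ y') : w y ≤ w y' ∧ w y' - w y ≤ y' - y := by
  have h1 := w_gt y
  have h2 := w_gt y'
  have e1 := w_log y
  have e2 := w_log y'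
  have h3 : w y ≤ w y' := by
    by_contra hlt
    push Not at hlt
    have h4 : Real.log (w y' - 1) < Real.log (w y - 1) := Real.log_lt_log (by linarith) (by linarith)
    linarith
  refine ⟨h3, ?_⟩
  have h4 : Real.log (w y - 1) ≤ Real.log (w y' - 1) := Real.log_le_log (by linarith) (by linarith)
  linarith

lemma w_cont : Continuous w := by
  have hL : LipschitzWith 1 w := by
    refine LipschitzWith.of_dist_le_mul fun x y => ?_
    rw [NNReal.coe_one, one_mul, Real.dist_eq, Real.dist_eq]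
    rcases le_total x y with h | h
    · obtain ⟨h1, h2⟩ := w_mono h
      rw [abs_sub_comm, abs_of_nonneg (by linarith), abs_sub_comm, abs_of_nonneg (by linarith)]
      exact h2
    · obtain ⟨h1, h2⟩ := w_mono h
      rw [abs_of_nonneg (by linarith), abs_of_nonneg (by linarith)]
      exact h2
  exact hL.continuous

lemma w_deriv (y : ℝ) : HasDerivAt w ((w y - 1) / w y) y := by
  have h1 := w_gt y
  have hf : HasDerivAt (fun v : ℝ => v + Real.log (v - 1)) (1 + 1 / (w y - 1)) (w y) := by
    have h2 : HasDerivAt (fun v : ℝ => Real.log (v - 1)) (1 / (w y - 1)) (w y) :=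
      ((hasDerivAt_id (w y)).sub_const 1).log (by simp only [id]; linarith)
    exact (hasDerivAt_id (w y)).add h2
  have h3 : (1 + 1 / (w y - 1)) ≠ 0 := by
    have : 0 < 1 / (w y - 1) := by
      have : 0 < w y - 1 := by linarith
      positivity
    linarith
  have h4 := HasDerivAt.of_local_left_inverse w_cont.continuousAt hf h3 (Eventually.of_forall w_log)
  refine h4.congr_deriv ?_
  have h5 : w y - 1 ≠ 0 := by linarith
  have h6 : w y ≠ 0 := by linarith
  have e : 1 + 1 / (w y - 1) = w y / (w y - 1) := by field_simp; ring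
  rw [e, inv_div]

/-- `1 / w` -/
def gw (y : ℝ) : ℝ := (w y)⁻¹

lemma gw_pos (y : ℝ) : 0 < gw y := inv_pos.2 (by linarith [w_gt y])

lemma gw_lt (y : ℝ) : gw y < 1 := inv_lt_one_of_one_lt₀ (w_gt y)

lemma gw_deriv (y : ℝ) : HasDerivAt gw (gw y ^ 3 - gw y ^ 2) y := by
  have h1 := w_gt y
  have h2 := (w_deriv y).inv (by linarith)
  refine h2.congr_deriv ?_
  unfold gw
  have h3 : w y ≠ 0 := by linarith
  field_simp
  ring

lemma w_size {y : ℝ} (hy : 2 ≤ y) : y / 2 ≤ w y ∧ w y ≤ y := by
  have h1 := w_gt y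
  have e1 := w_log y
  have h2 : 2 ≤ w y := by
    by_contra h
    push Not at h
    have h4 : Real.log (w y - 1) ≤ Real.log 1 := Real.log_le_log (by linarith) (by linarith)
    rw [Real.log_one] at h4
    linarith
  have h3 : 0 ≤ Real.log (w y - 1) := Real.log_nonneg (by linarith)
  have h4 := Real.log_le_sub_one_of_pos (show 0 < w y - 1 by linarith)
  constructor <;> linarith

lemma w_lim : Tendsto w atTop atTop := by
  refine tendsto_atTop_mono' atTop ?_ (tendsto_id.atTop_div_const (show (0:ℝ) < 2 by norm_num))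
  filter_upwards [eventually_ge_atTop 2] with y hy
  exact (w_size hy).1

/-- the polynomials in the derivatives -/
def Qm (m : ℕ) : Polynomial ℝ := (fun Q => Q + DD Q)^[m] X

/-- the successive derivatives of `2 π exp (w y)` -/
def Vc : ℕ → ℝ → ℝ
  | 0 => fun y => 2 * Real.pi * Real.exp (w y)
  | m + 1 => fun y => 2 * Real.pi * Real.exp y * (Qm m).eval (gw y)

lemma Vc_deriv (m : ℕ) (y : ℝ) : HasDerivAt (Vc m) (Vc (m + 1) y) y := by
  rcases m with _ | m
  · have h1 := ((w_deriv y).exp).const_mul (2 * Real.pi)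
    refine h1.congr_deriv ?_
    simp only [Vc, Qm, Function.iterate_zero, id, eval_X, gw]
    have h2 := w_eq y
    have h3 : w y ≠ 0 := by linarith [w_gt y]
    rw [← h2]
    field_simp
  · have h1 := ((Qm m).hasDerivAt (gw y)).comp y (gw_deriv y)
    have h2 := ((Real.hasDerivAt_exp y).const_mul (2 * Real.pi)).mul h1
    refine h2.congr_deriv ?_
    simp only [Vc]
    rw [show Qm (m + 1) = Qm m + DD (Qm m) from Function.iterate_succ_apply' _ _ _]
    simp only [DD, eval_add, eval_mul, eval_sub, eval_pow, eval_X, Function.comp]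
    ring

lemma Qm_bd (N : ℕ) : ∃ K : ℝ, 1 ≤ K ∧ ∀ m < N, ∀ g : ℝ, 0 < g → g ≤ 1 → |(Qm m).eval g| ≤ K := by
  have hb : ∀ l, ∃ K : ℝ, 0 ≤ K ∧ ∀ g : ℝ, 0 < g → g ≤ 1 → |(Qm l).eval g| ≤ K := by
    intro l
    obtain ⟨K, hK⟩ := isCompact_Icc.exists_bound_of_continuousOn (s := Set.Icc (0 : ℝ) 1)
      (f := fun g => (Qm l).eval g) (Qm l).continuous.continuousOn
    exact ⟨K, (norm_nonneg _).trans (hK 0 ⟨le_rfl, zero_le_one⟩), fun g h1 h2 => hK g ⟨h1.le, h2⟩⟩
  choose K hK0 hK using hb
  refine ⟨∑ l ∈ range N, K l + 1, ?_, fun l hl g hg0 hg1 => ?_⟩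
  · have : 0 ≤ ∑ l ∈ range N, K l := Finset.sum_nonneg fun i _ => hK0 i
    linarith
  · have := Finset.single_le_sum (f := K) (s := range N) (fun i _ => hK0 i) (Finset.mem_range.2 hl)
    linarith [hK l g hg0 hg1]

lemma DD_sub (A B : Polynomial ℝ) : DD (A - B) = DD A - DD B := by
  unfold DD; rw [derivative_sub]; ring

lemma DD_iter_sub (i : ℕ) (A B : Polynomial ℝ) : DD^[i] (A - B) = DD^[i] A - DD^[i] B := by
  induction i generalizing A B with
  | zero => rfl
  | succ i ih => rw [Function.iterate_succ_apply, Function.iterate_succ_apply, Function.iterate_succ_apply, DD_sub, ih]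

/-- from the operators `1 + DD` to `DD` -/
lemma conv {n : ℕ} (L : Polynomial ℝ → ℝ) (hL : ∀ A B, L (A - B) = L A - L B) (P : Polynomial ℝ) {δ : ℝ} (hδ : 0 ≤ δ)
    (h : ∀ i < n, |L ((fun Q => Q + DD Q)^[i] P)| ≤ δ) (i : ℕ) (hi : i < n) : |L (DD^[i] P)| ≤ 2 ^ i * δ := by
  have key : ∀ i m : ℕ, m + i < n → |L (DD^[i] ((fun Q => Q + DD Q)^[m] P))| ≤ 2 ^ i * δ := by
    intro i
    induction i with
    | zero => intro m hm; simpa using h m (by simpa using hm)
    | succ i ih =>
      intro m hm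
      have h1 := ih (m + 1) (by omega)
      have h2 := ih m (by omega)
      have e : DD^[i + 1] ((fun Q => Q + DD Q)^[m] P) = DD^[i] ((fun Q => Q + DD Q)^[m + 1] P) -
          DD^[i] ((fun Q => Q + DD Q)^[m] P) := by
        rw [Function.iterate_succ_apply, Function.iterate_succ_apply' (fun Q => Q + DD Q), ← DD_iter_sub]
        congr 1
        ring
      rw [e, hL, pow_succ]
      rw [abs_le] at h1 h2 ⊢
      constructor <;> linarith [h1.1, h1.2, h2.1, h2.2]
  simpa using key i 0 (by simpa using hi)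

end

end Pool.Agent.Q173.PI
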